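import Pool.Agent.R427.TW11

/-!
# Quadratic twists of elliptic curves with a point of order five over function fields

The order of vanishing of the `L`-function of a quadratic twist by `u` of an elliptic curve with a point
of order five over a function field `K` is bounded by the number of places of split multiplicative
reduction of the twist and the multiplicities of the roots modulo five of the numerators of the zeta
functions of `K` and `K(√u)`. An explicit family of twists of rank and order one.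
-/

set_option autoImplicit false
set_option linter.all false
set_option maxHeartbeats 4000000

open Polynomial Pool.Agent.W343.BSD Pool.Agent.W313.Gr

namespace Pool.Agent.Results.MP_ae0bd0_nt.FiveTorsionTwists

section defs

/-- The coefficient of `x` of the curve `E_g`. -/
def coeffA {K : Type} [Field K] (g : K) : K := -27 * (g ^ 4 - 12 * g ^ 3 + 14 * g ^ 2 + 12 * g + 1)

/-- The constant coefficient of the curve `E_g`. -/
def coeffB {K : Type} [Field K] (g : K) : K :=
  54 * (g ^ 6 - 18 * g ^ 5 + 75 * g ^ 4 + 75 * g ^ 2 + 18 * g + 1)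

/-- The coefficient of `x` of the twist of `E_g` by `u`. -/
def twistA {K : Type} [Field K] (u g : K) : K := u ^ 2 * coeffA g

/-- The constant coefficient of the twist of `E_g` by `u`. -/
def twistB {K : Type} [Field K] (u g : K) : K := u ^ 3 * coeffB g

open Classical in
/-- The sum of `5 ^ v₅(deg v)` over the places `v` of split multiplicative reduction (bad reduction and
`a_v = 1`) of `y ^ 2 = x ^ 3 + a x + b`. -/
noncomputable def splitSum (k : Type) {K : Type} [Field k] [Field K] [Algebra k K] (a b : K) : ℕ :=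
  ∑ᶠ v : FF.Place k K,
    if v.ord (minDisc v a b) ≠ 0 ∧ S.trace v a b = 1 then 5 ^ padicValNat 5 (S.deg v) else 0

/-- The sum of the multiplicities of the roots `1 / q` and `1` modulo five of the numerator `P` of a
zeta function. -/
noncomputable def numRoots (k : Type) (P : Polynomial ℤ) : ℕ :=
  (P.map (Int.castRingHom (ZMod 5))).rootMultiplicity ((Nat.card k : ℕ) : ZMod 5)⁻¹ +
    (P.map (Int.castRingHom (ZMod 5))).rootMultiplicity 1

/-- `y ^ 2 = x ^ 3 + a x + b` is an elliptic curve with a non-constant `j`-invariant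
`6912 a ^ 3 / (4 a ^ 3 + 27 b ^ 2)`. -/
def NonIsotrivial (k : Type) {K : Type} [Field k] [Field K] [Algebra k K] (a b : K) : Prop :=
  4 * a ^ 3 + 27 * b ^ 2 ≠ 0 ∧
    ∀ c : k, 6912 * a ^ 3 / (4 * a ^ 3 + 27 * b ^ 2) ≠ algebraMap k K c

/-- If `L(T, E)` is `(1 - |k| T) ^ m G(T)` with `G` in `ℤ[T]` then `m ≤ N`. -/
def OrderBound (k : Type) {K : Type} [Field k] [Field K] [Algebra k K] (a b : K) (N : ℕ) : Prop :=
  ∀ m : ℕ, S.VanishesTo k a b m → m ≤ N

/-- The rank is at least `R` and the order of vanishing `r` of `L(T, E)` at `T = 1 / |k|` (if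
`L(T, E)` is a polynomial) is at most `R`. If the rank is at most the order then both are `R`. -/
def RankAndOrder (k : Type) {K : Type} [Field k] [Field K] [Algebra k K] (a b : K) (R : ℕ) : Prop :=
  R ≤ rank a b ∧ OrderBound k a b R ∧
    ∀ r : ℕ, HasOrder k a b r → r ≤ R ∧ (rank a b ≤ r → r = R ∧ rank a b = R)

/-- `L` is the function field of a curve over `k` and is `K(√u)`. -/
def IsQuadExt (k K L : Type) [Field k] [Field K] [Field L] [Algebra k L] [Algebra K L] (u : K) :
    Prop :=
  IsCurveField k L ∧ (∀ s : K, u ≠ s ^ 2) ∧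
    ∃ θ : L, θ ^ 2 = algebraMap K L u ∧ IntermediateField.adjoin K {θ} = ⊤

/-- The twist of `E_g` by `u` has a non-constant `j`-invariant; the order of vanishing `m` of its
`L`-function satisfies `m + N(P) ≤ N(Q) + splitSum`; and if the rank is at least `R` and
`N(Q) + splitSum ≤ R + N(P)` then `RankAndOrder` holds. -/
def TwistOK (k : Type) {K : Type} [Field k] [Field K] [Algebra k K] (P Q : Polynomial ℤ) (u g : K) :
    Prop :=
  NonIsotrivial k (twistA u g) (twistB u g) ∧
  (∀ m : ℕ, S.VanishesTo k (twistA u g) (twistB u g) m →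
    m + numRoots k P ≤ numRoots k Q + splitSum k (twistA u g) (twistB u g)) ∧
  ∀ R : ℕ, R ≤ rank (twistA u g) (twistB u g) →
    numRoots k Q + splitSum k (twistA u g) (twistB u g) ≤ R + numRoots k P →
    RankAndOrder k (twistA u g) (twistB u g) R

/-- `x` is regular at `v` -/
def Regular {k K : Type} [Field k] [Field K] [Algebra k K] (v : FF.Place k K) (x : K) : Prop :=
  x = 0 ∨ 0 ≤ v.ord x

/-- The polynomial `(c + 1) ^ 2 f ^ 2 - (6 c ^ 2 + 2 c) f + 4 c ^ 3 + c ^ 2`. -/
def D {K : Type} [Field K] (c f : K) : K :=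
  (c + 1) ^ 2 * f ^ 2 - (6 * c ^ 2 + 2 * c) * f + (4 * c ^ 3 + c ^ 2)

/-- The excluded parameters. -/
def Good {k : Type} [Field k] (c : k) : Prop :=
  c ≠ 0 ∧ 4 * c + 1 ≠ 0 ∧ c ^ 2 + 7 * c + 1 ≠ 0 ∧ 16 * c ^ 2 + 12 * c + 1 ≠ 0

/-- The condition at the roots of `x ^ 2 - 11 x - 1`: if `q` is `2` or `3` modulo five then
`16 c ^ 2 + 12 c + 1` is a square, if `q` is `1` modulo five then `D(c, x)` is not a square at the
roots, and if `q` is `4` modulo five then `D(c, x)` is a square at the roots. -/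
def NodeOK {k : Type} [Field k] (c : k) : Prop :=
  (Nat.card k % 5 = 2 ∨ Nat.card k % 5 = 3 → IsSquare (16 * c ^ 2 + 12 * c + 1)) ∧
    ∀ x : k, x ^ 2 - 11 * x - 1 = 0 →
      (Nat.card k % 5 = 1 → ¬ IsSquare (D c x)) ∧ (Nat.card k % 5 = 4 → IsSquare (D c x))

end defs

section proof

open Pool.Agent.R427

theorem thirty {k : Type} [Field k] (h : (30 : k) ≠ 0) :
    (2 : k) ≠ 0 ∧ (3 : k) ≠ 0 ∧ (5 : k) ≠ 0 :=
  ⟨fun e => h (by linear_combination 15 * e), fun e => h (by linear_combination 10 * e),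
    fun e => h (by linear_combination 6 * e)⟩

/-- twists have the same `j`-invariant -/
theorem noniso_twist {k K : Type} [Field k] [Field K] [Algebra k K] {a b u : K} (hu : u ≠ 0)
    (hΔ : 4 * a ^ 3 + 27 * b ^ 2 ≠ 0)
    (h : ∀ c : k, 6912 * a ^ 3 ≠ algebraMap k K c * (4 * a ^ 3 + 27 * b ^ 2)) :
    NonIsotrivial k (u ^ 2 * a) (u ^ 3 * b) := by
  have e : 4 * (u ^ 2 * a) ^ 3 + 27 * (u ^ 3 * b) ^ 2 = u ^ 6 * (4 * a ^ 3 + 27 * b ^ 2) := by ring
  have hu6 : u ^ 6 ≠ 0 := pow_ne_zero 6 hu
  refine ⟨by rw [e]; exact mul_ne_zero hu6 hΔ, fun c hc => ?_⟩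
  rw [e, div_eq_iff (mul_ne_zero hu6 hΔ)] at hc
  apply h c
  apply mul_left_cancel₀ hu6
  linear_combination hc

theorem twistOK {k K L : Type} [Field k] [Finite k] [Field K] [Algebra k K] [Field L]
    [Algebra k L] [Algebra K L] [IsScalarTower k K L] (h : (30 : k) ≠ 0) (hK : IsCurveField k K)
    {u : K} (hL : IsQuadExt k K L u) {P Q : ℤ[X]} (hP : S.IsZetaNum k K P)
    (hQ : S.IsZetaNum k L Q) {g : K} (hg : ∀ c : k, g ≠ algebraMap k K c) :
    TwistOK k P Q u g := by
  haveI : Fact (Nat.Prime 5) := ⟨Nat.prime_five⟩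
  obtain ⟨h2, h3, h5⟩ := thirty h
  have h6 : (6 : k) ≠ 0 := by
    have : (6 : k) = 2 * 3 := by norm_num
    rw [this]
    exact mul_ne_zero h2 h3
  haveI : FF.IsFF k K := ⟨hK.essFiniteType, hK.trdeg_eq_one⟩
  have hr : constDeg k K = 1 := TH958.T4.constDeg_eq_one hK.algClosed
  obtain ⟨hLc, hns, θ, hθ, htop⟩ := hL
  haveI : FF.IsFF k L := ⟨hLc.essFiniteType, hLc.trdeg_eq_one⟩
  have hr' : constDeg k L = 1 := TH958.T4.constDeg_eq_one hLc.algClosed
  have h2K : (2 : K) ≠ 0 := by
    have : algebraMap k K 2 ≠ 0 := by simpa using h2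
    rwa [map_ofNat] at this
  have hu : u ≠ 0 := by
    intro h0
    apply hns 0
    rw [h0]
    ring
  have htr : Transcendental k g := TH180.R2.transc hr hg
  obtain ⟨g0, g1, hΔ⟩ := FT.ne_facts h2 h3 htr
  obtain ⟨q1, q2, q3⟩ := TH639.B3.quad_data h2K hθ hns htop
  have hP' := (S.isZetaNum_iff P).1 hP
  have hQ' := (S.isZetaNum_iff Q).1 hQ
  have hrel := TH639.B3.zeta_rel h6 q3 hu hθ hns hP' hQ' hr hr'
  have hrel5 := TW.rel_mod (l := 5) hrel
  have hne : ∀ {F : Type} [Field F] [Algebra k F] [FF.IsFF k F] {P : ℤ[X]},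
      IsZetaNumRel k F P → P.map (Int.castRingHom (ZMod 5)) ≠ 0 :=
    fun h => zeta_ne (l := 5) h
  have hb : ∀ m : ℕ, S.VanishesTo k (twistA u g) (twistB u g) m →
      m + numRoots k P ≤ numRoots k Q + splitSum k (twistA u g) (twistB u g) :=
    fun m hm => TW.twist_five h2 h3 h5 g0 g1 hu (hne hP') (hne hQ') hrel5 hm
  refine ⟨noniso_twist hu hΔ (FT.noniso h2 h3 htr), hb, fun R hR hw => ?_⟩
  have hU : OrderBound k (twistA u g) (twistB u g) R := by
    intro m hm
    have := hb m hm
    omega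
  exact ⟨hR, hU, fun r hr => TH180.R4.concl4 hR hU r hr⟩

theorem map_D {k : Type} [Field k] (c : k) :
    Pool.Agent.W309.RF.A (TW.Dc c) = D (algebraMap k (RatFunc k) c) RatFunc.X := by
  have e : Pool.Agent.W309.RF.A (TW.Dc c) = aeval (RatFunc.X : RatFunc k) (TW.Dc c) :=
    Pool.Agent.W309.RF.A_aeval _
  rw [e, TW.aeval_Dc]
  rfl

theorem rank_D {k K : Type} [Field k] [Finite k] [Field K] [Algebra k K] (h : (30 : k) ≠ 0)
    {c : k} (hc : Good c) {f : K} (hf : Transcendental k f) :
    1 ≤ rank (twistA (D (algebraMap k K c) f) f) (twistB (D (algebraMap k K c) f) f) := by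
  obtain ⟨h2, h3, h5⟩ := thirty h
  obtain ⟨c0, c1, c2, c3⟩ := hc
  have h1 := TW.rank_Dc h2 h3 c0 c1 c2 c3
  rw [map_D] at h1
  obtain ⟨Φ, hΦ⟩ := TH180.R4.exists_lift hf
  letI : Algebra (RatFunc k) K := Φ.toRingHom.toAlgebra
  have hΦa : ∀ x : RatFunc k, algebraMap (RatFunc k) K x = Φ x := fun _ => rfl
  refine h1.trans ?_
  have h4 := rank_mono (K' := K)
    (D (algebraMap k (RatFunc k) c) (RatFunc.X : RatFunc k) ^ 2 * FT.fA RatFunc.X)
    (D (algebraMap k (RatFunc k) c) (RatFunc.X : RatFunc k) ^ 3 * FT.fB RatFunc.X)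
  have eD : Φ (D (algebraMap k (RatFunc k) c) RatFunc.X) = D (algebraMap k K c) f := by
    unfold D
    simp only [map_add, map_sub, map_mul, map_pow, map_one, map_ofNat, hΦ, AlgHom.commutes]
  rw [map_mul, map_mul, map_pow, map_pow, FT.map_fA, FT.map_fB, hΦa, hΦa, hΦ, eD] at h4
  exact h4

end proof

/-- Let `k` be a finite field of characteristic at least `7` with `q` elements. For `g` in a function
field `K` over `k` let `E_g` be the curve `y ^ 2 = x ^ 3 + A(g) x + B(g)` with
`A = -27 (g ^ 4 - 12 g ^ 3 + 14 g ^ 2 + 12 g + 1)` and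
`B = 54 (g ^ 6 - 18 g ^ 5 + 75 g ^ 4 + 75 g ^ 2 + 18 g + 1)`, which has a point of order five.

(1) Let `K` and `L = K(√u)` be the function fields of curves over `k`, where `u` in `K` is not a square,
and let `P` and `Q` be the numerators of their zeta functions. For `g` in `K` non-constant the
quadratic twist of `E_g` by `u` has a non-constant `j`-invariant and its `L`-function vanishes at
`1 / q` to order at most `N(Q) - N(P) + W`, where `N` is the number of the roots `1` and `1 / q`
modulo five and `W` is the number of places of split multiplicative reduction of the twist, counted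
with the multiplicities `5 ^ v₅(deg v)`. If the rank is at least `R` and `N(Q) - N(P) + W ≤ R`, then
the order is at most `R`, and if the rank is at most the order both are `R`.

(2) Let `y ^ 2 = x ^ 3 + a x + b` be an elliptic curve without a point of order two over a function
field `K` over `k`, and `x` in `K` with `x ^ 3 + a x + b = u r ^ 2`, `u r ≠ 0`. If the valuation of `u`
is odd at a place of good reduction at which `a`, `b` and `x` are regular, then the quadratic twist by
`u` has rank at least one over `K`.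

(3) Let `c ∈ k` with `c (4 c + 1) (c ^ 2 + 7 c + 1) (16 c ^ 2 + 12 c + 1) ≠ 0` and
`D = (c + 1) ^ 2 f ^ 2 - (6 c ^ 2 + 2 c) f + 4 c ^ 3 + c ^ 2`. For all non-constant `f` in `K`
the quadratic twist of `E_f` by `D` has rank at least one. If `K = k(t)`, `f = t`, `4 c + 1` is
not a square and `NodeOK` holds, the last conclusion of (1) holds for it with `R = 1`. -/
theorem result (k : Type) [Field k] [Finite k] (h : (30 : k) ≠ 0) :
    (∀ (K : Type) [Field K] [Algebra k K], IsCurveField k K →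
      (∀ (L : Type) [Field L] [Algebra k L] [Algebra K L] [IsScalarTower k K L] (u : K),
        IsQuadExt k K L u → ∀ P Q : ℤ[X], S.IsZetaNum k K P → S.IsZetaNum k L Q →
          ∀ g : K, (∀ c : k, g ≠ algebraMap k K c) → TwistOK k P Q u g) ∧
      (∀ (a b x u r : K) (v : FF.Place k K), (∀ e : K, e ^ 3 + a * e + b ≠ 0) →
        x ^ 3 + a * x + b = u * r ^ 2 → u ≠ 0 → r ≠ 0 → Regular v a → Regular v b →
        Regular v x → 4 * a ^ 3 + 27 * b ^ 2 ≠ 0 → v.ord (4 * a ^ 3 + 27 * b ^ 2) = 0 →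
        Odd (v.ord u) → 1 ≤ rank (u ^ 2 * a) (u ^ 3 * b)) ∧
      ∀ c : k, Good c → ∀ f : K, (∀ z : k, f ≠ algebraMap k K z) →
        1 ≤ rank (twistA (D (algebraMap k K c) f) f) (twistB (D (algebraMap k K c) f) f)) ∧
    ∀ c : k, Good c → ¬ IsSquare (4 * c + 1) → NodeOK c →
      RankAndOrder k (twistA (D (algebraMap k (RatFunc k) c) RatFunc.X) RatFunc.X)
        (twistB (D (algebraMap k (RatFunc k) c) RatFunc.X) RatFunc.X) 1 := by
  classical
  haveI : Fact (Nat.Prime 5) := ⟨Nat.prime_five⟩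
  obtain ⟨h2, h3, h5⟩ := thirty h
  constructor
  · intro K _ _ hK
    haveI : FF.IsFF k K := ⟨hK.essFiniteType, hK.trdeg_eq_one⟩
    refine ⟨?_, ?_, ?_⟩
    · intro L _ _ _ _ u hL P Q hP hQ g hg
      exact twistOK h hK hL hP hQ hg
    · intro a b x u r v hno hE hu hr ra rb rx hΔ0 hΔ hodd
      exact Pool.Agent.R427.TW.rank_twist (v := v) h2 ra rb rx (v.red_ne_zero hΔ0 hΔ) hu hr hE hodd
        hno
    · intro c hc f hf
      have hr : constDeg k K = 1 := Pool.Agent.TH958.T4.constDeg_eq_one hK.algClosed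
      exact rank_D h hc (Pool.Agent.TH180.R2.transc hr hf)
  · intro c hc hns hN
    have hR := rank_D h hc (RatFunc.transcendental_X (K := k))
    obtain ⟨c0, c1, c2, c3⟩ := hc
    obtain ⟨hD0, -⟩ := Pool.Agent.R427.TW.Dc_ne h2 c0
    obtain ⟨g0, g1, hΔ⟩ := Pool.Agent.R427.FT.ne_facts h2 h3 (RatFunc.transcendental_X (K := k))
    have hA := Pool.Agent.W309.RF.A_ne hD0
    have hN' : Pool.Agent.R427.TW.NodeOK c := by
      refine ⟨hN.1, fun β hβ => ?_⟩
      rw [Pool.Agent.R427.TW.eval_Dc]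
      exact hN.2 β hβ
    have hU : OrderBound k (twistA (D (algebraMap k (RatFunc k) c) RatFunc.X) RatFunc.X)
        (twistB (D (algebraMap k (RatFunc k) c) RatFunc.X) RatFunc.X) 1 := by
      intro m hm
      rw [← map_D] at hm
      have h4 := Pool.Agent.R427.TW.twist_five h2 h3 h5 g0 g1 hA (P := 1) (Q := 1) one_ne_zero
        one_ne_zero (by
          rw [Polynomial.coe_one, one_mul]
          exact Pool.Agent.R427.TW.rel_Dc h2 h3 c0 c1 c2 c3) hm
      have h7 : ∑ᶠ v : FF.Place k (RatFunc k), Pool.Agent.R427.TW.splitW 5 v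
          (Pool.Agent.W309.RF.A (Pool.Agent.R427.TW.Dc c) ^ 2 * Pool.Agent.R427.FT.fA RatFunc.X)
          (Pool.Agent.W309.RF.A (Pool.Agent.R427.TW.Dc c) ^ 3 * Pool.Agent.R427.FT.fB RatFunc.X) ≤
          1 := by
        rw [finsum_eq_single _ (Pool.Agent.W309.RF.infty k)]
        · unfold Pool.Agent.R427.TW.splitW
          rw [S.deg_eq, Pool.Agent.W309.RF.inf_deg Pool.Agent.W309.RF.infty_X]
          have e1 : padicValNat 5 1 = 0 := padicValNat.one
          rw [e1, pow_zero]
          split_ifs <;> norm_num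
        · intro v hv
          exact Pool.Agent.R427.TW.split_fin h2 h3 h5 c0 hns c2 c3 hN'
            (Pool.Agent.W309.RF.fin_of_ne hv)
      have h8 : m ≤ ∑ᶠ v : FF.Place k (RatFunc k), Pool.Agent.R427.TW.splitW 5 v
          (Pool.Agent.W309.RF.A (Pool.Agent.R427.TW.Dc c) ^ 2 * Pool.Agent.R427.FT.fA RatFunc.X)
          (Pool.Agent.W309.RF.A (Pool.Agent.R427.TW.Dc c) ^ 3 * Pool.Agent.R427.FT.fB RatFunc.X) := by
        omega
      exact h8.trans h7
    have hR' : ((1 : ℕ) : Cardinal) ≤ rank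
        (twistA (D (algebraMap k (RatFunc k) c) RatFunc.X) RatFunc.X)
        (twistB (D (algebraMap k (RatFunc k) c) RatFunc.X) RatFunc.X) := by
      rw [Nat.cast_one]
      exact hR
    exact ⟨hR', hU, fun r hr => Pool.Agent.TH180.R4.concl4 hR' hU r hr⟩

end Pool.Agent.Results.MP_ae0bd0_nt.FiveTorsionTwists
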