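import Pool.Agent.R432.JG.Common

/-!
# The rank part of the conjecture of Birch and Swinnerton-Dyer over every field `ℚ(∛l : l ∈ M)`, for an
exact proportion of the curves, and over infinite towers of these fields

`E_D : y² + D y = x³` over `ℚ` (`3`-isogenous to `x³ + y³ = D`).  `M` is any finite set of primes
`≡ 1` modulo `9`, `n = #M`, and `L = ℚ(∛l : l ∈ M)`, a number field of degree `3 ^ n` (not Galois over
`ℚ` if `n > 0`).  `D` runs through the squarefree numbers, prime to `3` and to `M`, not `±1` modulo `9`,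
that are divisible by exactly one prime `2` modulo `3`.  We prove:

* the proportion of the `D` for which ALL the `3 ^ n` cubic twists `E_{D'}`, `D' = D ∏ l^{t_l}`,
  `t_l = 0, 1, 2`, have no splitting (a condition on cubic residues, equivalent to: `E_{D'}(ℚ)` is
  finite and `Ш(E_{D'} / ℚ)[3^∞] = 0`) tends exactly to `c ^ {3 ^ n}`,
  `c = ∏_{i ≥ 1} (1 - 3^{-i}) = 0.5601...`;
* for these `D` the Hasse-Weil `L`-function `L(E_D / L, s)` (all Euler factors, from minimal models) has a
  meromorphic continuation to `ℂ` that is analytic and not zero at `s = 1`, and `E_D(L)` is finite; the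
  same is true over all the fields `L(∛l : l ∈ S)`, `S` an admissible finite set of primes; to every
  admissible set infinitely many primes can be added.

The proof.  (1) The joint law of the cubic residue symbols (project JL, see
`MP_f50388_nt/FixedCubicRadicalFields`).  (2) The `L`-function of `E_D` over `L(ω)` is the product of
the `L`-functions of all the twists of `E_D` over `ℚ(ω)`, and `L(E_D / L, s)` is the product of those over
`ℚ`, up to finitely many Euler factors; the library shows that these `L`-functions are entire and not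
zero at `s = 1` if the numbers have no splitting.  (3) The missing Euler factors are not zero at `s = 1`.

Authors of the parts of project JL: helper962 (matrices), helper159 (matrices of symbols), helper152
(sieve), helper916 (boxes), helper258 (asymptotics), helper432 (the others).
-/

set_option autoImplicit false

namespace Pool.Agent.Results.MP_ae0bd0_nt.FixedCubicRadicalFields

open NumberField IsDedekindDomain
open scoped Classical

/-- The curve `E_D : y² + D y = x³` over `L`. -/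
def curve (D : ℕ) (L : Type) [Field L] : WeierstrassCurve L := ⟨0, 0, (D : L), 0, 0⟩

/-- `D` is squarefree, not divisible by `3`, not `±1` modulo `9`, not divisible by the elements of `M`,
and divisible by exactly one prime that is `2` modulo `3`. -/
def InClass (M : Finset ℕ) (D : ℕ) : Prop :=
  Squarefree D ∧ ¬ 3 ∣ D ∧ D % 9 ≠ 1 ∧ D % 9 ≠ 8 ∧ (∀ l ∈ M, ¬ l ∣ D) ∧
    ∃ q : ℕ, q.Prime ∧ q % 3 = 2 ∧ q ∣ D ∧ ∀ p : ℕ, p.Prime → p ∣ D → p ≠ q → p % 3 = 1

/-- The number `D ∏_{l ∈ M} l ^ (t l)` with exponents `0`, `1`, `2`. -/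
def twist (M : Finset ℕ) (D : ℕ) (t : {l : ℕ // l ∈ M} → ZMod 3) : ℕ :=
  D * ∏ l : {l : ℕ // l ∈ M}, l.1 ^ (t l).val

/-- In every factorization of `D` in coprime factors `d₀ d₁ d₂` for which `d₁ d₂²`, `d₂ d₀²`,
`d₀ d₁²` are cubes modulo the primes dividing `d₀`, `d₁`, `d₂` respectively, two factors are `1`. -/
def HasNoSplitting (D : ℕ) : Prop :=
  ∀ d : ZMod 3 → ℕ, ∏ c, d c = D → (∀ c c', c ≠ c' → Nat.Coprime (d c) (d c')) →
    (∀ (c : ZMod 3) (p : ℕ), p.Prime → p ∣ d c →
      ∃ x : ℤ, (p : ℤ) ∣ (d (c + 1) : ℤ) * (d (c + 2) : ℤ) ^ 2 - x ^ 3) →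
    ∃ c, ∀ c', c' ≠ c → d c' = 1

/-- All the `3 ^ #M` cubic twists of `D` by the products of the elements of `M` have no splitting. -/
def Good (M : Finset ℕ) (D : ℕ) : Prop :=
  ∀ t : {l : ℕ // l ∈ M} → ZMod 3, HasNoSplitting (twist M D t)

/-- `a` is a cube modulo `m`. -/
def IsCubeMod (a m : ℕ) : Prop := ∃ x : ℤ, (m : ℤ) ∣ (a : ℤ) - x ^ 3

/-- `p` is a prime factor of `D` that is not a cube modulo `l`, and `l` and the other prime factors of
`D` and the elements of `M` are cubes modulo each other. -/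
def AttachedAt (D : ℕ) (M : Finset ℕ) (l p : ℕ) : Prop :=
  p.Prime ∧ p ∣ D ∧ ¬ IsCubeMod p l ∧
    ∀ r : ℕ, r.Prime → (r ∣ D ∨ r ∈ M) → r ≠ p → IsCubeMod r l ∧ IsCubeMod l r

/-- Each `l ∈ S` is a prime, `1` modulo `9`, that does not divide `D`, is not in `M` and is attached to a
prime factor of `D`, and the elements of `S` are cubes modulo each other. -/
def Admissible (D : ℕ) (M S : Finset ℕ) : Prop :=
  (∀ l ∈ S, l.Prime ∧ l % 9 = 1 ∧ ¬ l ∣ D ∧ l ∉ M ∧ ∃ p : ℕ, AttachedAt D M l p) ∧
    ∀ l ∈ S, ∀ m ∈ S, l ≠ m → IsCubeMod l m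

/-- `L = ℚ(∛l : l ∈ S)`. -/
def Generated (S : Finset ℕ) (L : Type) [Field L] : Prop :=
  ∃ r : ℕ → L, (∀ l ∈ S, r l ^ 3 = (l : L)) ∧ ∀ F : Subfield L, (∀ l ∈ S, r l ∈ F) → F = ⊤

section field

variable {L : Type} [Field L] [NumberField L]

/-- `V v` is, for every prime `v`, an integral model of `E` with discriminant minimal at `v`. -/
def MinimalModels (E : WeierstrassCurve L)
    (V : HeightOneSpectrum (𝓞 L) → WeierstrassCurve (𝓞 L)) : Prop :=
  ∀ v : HeightOneSpectrum (𝓞 L),
    (∃ C : WeierstrassCurve.VariableChange L, C • (V v).map (algebraMap (𝓞 L) L) = E) ∧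
    ∀ W : WeierstrassCurve (𝓞 L),
      (∃ C : WeierstrassCurve.VariableChange L, C • W.map (algebraMap (𝓞 L) L) = E) →
        ∀ n : ℕ, (V v).Δ ∈ v.asIdeal ^ n → W.Δ ∈ v.asIdeal ^ n

/-- The Euler factor at `v`, computed from the reduction of `V v`: `(1 - a_v q_v^{-s} + q_v^{1-2s})⁻¹` if
the reduction is good and `(1 - a_v q_v^{-s})⁻¹` if it is bad, where `a_v` is `q_v` minus the number of
affine points of the reduction (so `a_v = 1`, `-1`, `0` in the cases of split multiplicative, non-split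
multiplicative and additive reduction). -/
noncomputable def factor (V : HeightOneSpectrum (𝓞 L) → WeierstrassCurve (𝓞 L)) (s : ℂ)
    (v : HeightOneSpectrum (𝓞 L)) : ℂ :=
  (1 - ((Ideal.absNorm v.asIdeal : ℂ)
        - (Nat.card {xy : (𝓞 L ⧸ v.asIdeal) × (𝓞 L ⧸ v.asIdeal) //
            ((V v).map (Ideal.Quotient.mk v.asIdeal)).toAffine.Equation xy.1 xy.2} : ℂ))
        * (Ideal.absNorm v.asIdeal : ℂ) ^ (-s)
    + (if (V v).Δ ∈ v.asIdeal then 0 else (Ideal.absNorm v.asIdeal : ℂ))
        * (Ideal.absNorm v.asIdeal : ℂ) ^ (-2 * s))⁻¹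

/-- The rank part of the conjecture holds for `E` over `L` with order of vanishing and rank zero: `E`
has minimal models; the Euler product over all primes converges for `Re s > 3/2`, whatever the minimal
models, to a function that has a meromorphic continuation `Λ` to `ℂ`, and `Λ` is analytic and not zero at
`s = 1`; and the group `E(L)` is finite. -/
def RankZero (E : WeierstrassCurve L) : Prop :=
  (∃ V : HeightOneSpectrum (𝓞 L) → WeierstrassCurve (𝓞 L), MinimalModels E V) ∧
  (∃ Λ : ℂ → ℂ, MeromorphicOn Λ Set.univ ∧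
    (∀ V : HeightOneSpectrum (𝓞 L) → WeierstrassCurve (𝓞 L), MinimalModels E V →
      ∀ s : ℂ, 3 / 2 < s.re → HasProd (factor V s) (Λ s)) ∧
    AnalyticAt ℂ Λ 1 ∧ Λ 1 ≠ 0) ∧
  Finite E.toAffine.Point

end field

/-- For every admissible set `S` (in particular for the empty set): for every prime factor `p` of `D`
there are infinitely many primes `l` outside `S`, attached to `p`, such that `S ∪ {l}` is admissible;
there is a number field `L = ℚ(∛l : l ∈ M ∪ S)`, and for each such `L` the degree is `3 ^ #(M ∪ S)`, and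
the rank part of the conjecture holds for `E_D` over `L`, with order and rank zero. -/
def Towers (M : Finset ℕ) (D : ℕ) : Prop :=
  ∀ S : Finset ℕ, Admissible D M S →
    (∀ p : ℕ, p.Prime → p ∣ D →
      {l : ℕ | l ∉ S ∧ AttachedAt D M l p ∧ Admissible D M (insert l S)}.Infinite) ∧
    (∃ (L : Type) (_ : Field L) (_ : NumberField L), Generated (M ∪ S) L) ∧
    ∀ (L : Type) [Field L] [NumberField L], Generated (M ∪ S) L →
      Module.finrank ℚ L = 3 ^ (M ∪ S).card ∧ RankZero (curve D L)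

section proof

open Pool.Agent.R432.JG (AdmM Cl cl_iff overL moreM exists_gen)
open Pool.Agent.H341R2.EC (IsModel IsMinAt red aff trc dlt)
open Pool.Agent.R433.MD (lf)
open Pool.Agent.H921R2.TatePole (nm two_le_nm)

section bridge
variable {K : Type} [Field K] [NumberField K]

theorem isModel_iff (E : WeierstrassCurve K) (W : WeierstrassCurve (𝓞 K)) :
    (∃ C : WeierstrassCurve.VariableChange K, C • W.map (algebraMap (𝓞 K) K) = E) ↔
      IsModel E W := by
  constructor
  · rintro ⟨C, hC⟩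
    exact ⟨C⁻¹, by rw [← hC, inv_smul_smul]⟩
  · rintro ⟨C, hC⟩
    exact ⟨C⁻¹, by rw [← hC, inv_smul_smul]⟩

theorem minimalModels_iff (E : WeierstrassCurve K)
    (V : HeightOneSpectrum (𝓞 K) → WeierstrassCurve (𝓞 K)) :
    MinimalModels E V ↔ ∀ v, IsMinAt E v (V v) := by
  unfold MinimalModels IsMinAt
  simp only [isModel_iff]

theorem factor_eq (V : HeightOneSpectrum (𝓞 K) → WeierstrassCurve (𝓞 K)) (s : ℂ)
    (v : HeightOneSpectrum (𝓞 K)) : factor V s v = (lf V s v)⁻¹ := by
  unfold factor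
  congr 1
  unfold lf trc dlt
  have h0 : ((nm v : ℕ) : ℂ) ≠ 0 := by
    have := two_le_nm v
    exact_mod_cast (by omega : nm v ≠ 0)
  have e1 : Nat.card {xy : (𝓞 K ⧸ v.asIdeal) × (𝓞 K ⧸ v.asIdeal) //
      ((V v).map (Ideal.Quotient.mk v.asIdeal)).toAffine.Equation xy.1 xy.2} =
      aff (red v (V v)) := by
    unfold aff red
    refine Nat.card_congr (Equiv.subtypeEquivRight fun xy => ?_)
    rw [WeierstrassCurve.Affine.equation_iff]
  have e2 : ((nm v : ℕ) : ℂ) ^ (1 - 2 * s) = ((nm v : ℕ) : ℂ) * ((nm v : ℕ) : ℂ) ^ (-2 * s) := by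
    rw [sub_eq_add_neg, Complex.cpow_add _ _ h0, Complex.cpow_one]
    congr 2
    ring
  have e3 : (Ideal.absNorm v.asIdeal : ℂ) = ((nm v : ℕ) : ℂ) := rfl
  rw [e1, e2, e3]
  push_cast
  split_ifs with h
  · ring
  · ring

end bridge

theorem adm_of {D : ℕ} {M S : Finset ℕ} (h : Admissible D M S) :
    ∃ a : ℕ → ℕ, AdmM D M a S := by
  have h1 : ∀ l : ℕ, ∃ p : ℕ, l ∈ S → AttachedAt D M l p := by
    intro l
    by_cases hl : l ∈ S
    · obtain ⟨-, -, -, -, p, hp⟩ := h.1 l hl
      exact ⟨p, fun _ => hp⟩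
    · exact ⟨0, fun h' => absurd h' hl⟩
  choose a ha using h1
  exact ⟨a, fun l hl => (h.1 l hl).1, fun l hl => (h.1 l hl).2.1, fun l hl => (h.1 l hl).2.2.1,
    fun l hl => (h.1 l hl).2.2.2.1, fun l hl => (ha l hl).1, fun l hl => (ha l hl).2.1,
    fun l hl => (ha l hl).2.2.1, fun l hl => (ha l hl).2.2.2, h.2⟩

theorem of_adm {D : ℕ} {M S : Finset ℕ} {a : ℕ → ℕ} (h : AdmM D M a S) : Admissible D M S :=
  ⟨fun l hl => ⟨h.pr l hl, h.nine l hl, h.nd l hl, h.nM l hl, a l, h.ap l hl, h.ad l hl, h.att l hl,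
    h.free l hl⟩, h.pw⟩

/-- The theorem for one `D`. -/
theorem towers {M : Finset ℕ} (hM : ∀ l ∈ M, l.Prime ∧ l % 9 = 1) {D : ℕ} (hD : InClass M D)
    (hN : Good M D) : Towers M D := by
  have hC : Cl M D := (cl_iff M D).2 hD
  intro S hS
  obtain ⟨a, hA⟩ := adm_of hS
  refine ⟨fun p hp hpD => ?_, exists_gen (M ∪ S), fun L _ _ hL => ?_⟩
  · refine (moreM hM hC hA hp hpD).mono ?_
    rintro l ⟨h1, h2⟩
    refine ⟨h1, ?_, of_adm h2⟩
    have hl : l ∈ insert l S := Finset.mem_insert_self l S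
    have h3 := h2.att l hl
    have h4 := h2.free l hl
    simp only [if_true] at h3 h4
    exact ⟨hp, hpD, h3, h4⟩
  · obtain ⟨r, hr1, hr2⟩ := hL
    obtain ⟨h1, h2, -, Λ, h3, h4, h5, h6⟩ := overL hM hC hA hN r hr1 hr2
    obtain ⟨V0, hV0⟩ := Pool.Agent.R433.MD.exists_minimal (curve D L)
      (Pool.Agent.R432.JG.ell hC.1.ne_zero)
    refine ⟨h1, ⟨V0, (minimalModels_iff _ _).2 hV0⟩, ⟨Λ, h3, fun V hV s hs => ?_, h4, h5⟩, h2⟩
    exact (h6 V ((minimalModels_iff _ _).1 hV) s hs).congr_fun fun v => (factor_eq V s v)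

end proof

open Pool.Agent.R432.JG (Cl cl_iff)

/-- **Main theorem.**  For every finite set `M` of primes `≡ 1` modulo `9`, and
`c = ∏_{i ≥ 1} (1 - 3^{-i}) > 0.56`: the number of the `D ≤ X` in the class is at least
`c' X / √(log X)`; the proportion of the `D` in the class such that all the `3 ^ #M` twists of `D` have
no splitting tends to `c ^ (3 ^ #M)`; and all these `D` have the property `Towers`. -/
theorem result (M : Finset ℕ) (hM : ∀ l ∈ M, l.Prime ∧ l % 9 = 1) :
    (∃ c' : ℝ, 0 < c' ∧ ∃ X₀ : ℕ, ∀ X : ℕ, X₀ ≤ X →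
      c' * X / Real.sqrt (Real.log X) ≤
        (((Finset.Icc 1 X).filter fun D => InClass M D).card : ℝ)) ∧
    (0.56 : ℝ) < ∏' i : ℕ, (1 - (1 / 3 : ℝ) ^ (i + 1)) ∧
    Filter.Tendsto (fun X : ℕ =>
      (((Finset.Icc 1 X).filter fun D => InClass M D ∧ Good M D).card : ℝ) /
        (((Finset.Icc 1 X).filter fun D => InClass M D).card : ℝ)) Filter.atTop
      (nhds ((∏' i : ℕ, (1 - (1 / 3 : ℝ) ^ (i + 1))) ^ (3 ^ M.card))) ∧
    ∀ D : ℕ, InClass M D → Good M D → Towers M D := by
  have e1 : ∀ X : ℕ, (Finset.Icc 1 X).filter (fun D => InClass M D) =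
      (Finset.Icc 1 X).filter fun D => Cl M D := fun X =>
    Finset.filter_congr fun D _ => (cl_iff M D).symm
  have e2 : ∀ X : ℕ, (Finset.Icc 1 X).filter (fun D => InClass M D ∧ Good M D) =
      (Finset.Icc 1 X).filter fun D => Cl M D ∧
        Pool.Agent.R432.JG.AG M Finset.univ D := fun X =>
    Finset.filter_congr fun D _ => by
      rw [show InClass M D ↔ Cl M D from (cl_iff M D).symm]
      refine and_congr_right fun hC => ?_
      unfold Good Pool.Agent.R432.JG.AG
      exact ⟨fun h t _ => h t, fun h t => h t (Finset.mem_univ t)⟩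
  have hcard : (Finset.univ : Finset ({l : ℕ // l ∈ M} → ZMod 3)).card = 3 ^ M.card := by
    rw [Finset.card_univ, Fintype.card_fun, ZMod.card, Fintype.card_coe]
  refine ⟨?_, Pool.Agent.R432.JG.c3_gt, ?_, fun D hD hN => towers hM hD hN⟩
  · simp only [e1]
    exact Pool.Agent.R432.JG.low hM
  · simp only [e1, e2]
    have h := Pool.Agent.R432.JG.law_all hM Finset.univ
    rw [hcard] at h
    exact h

end Pool.Agent.Results.MP_ae0bd0_nt.FixedCubicRadicalFields
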