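import Pool.Agent.R429.DM.Ker
import Pool.Agent.R429.DM.OneSd2
import Pool.Agent.TH270.MS.GrowthF
import Pool.Agent.TH941.Newform

/-!
# The two inequalities of the conjecture of Birch and Swinnerton-Dyer and one-sided growth

Let `E : y² = x³ + a x + b` be an elliptic curve over `ℚ`, `a, b ∈ ℤ`, let `F` be the entire continuation of
its incomplete `L`-series, `f` its newform and `N_p` the number of affine points modulo `p`, so that
`#E(𝔽_p) = N_p + 1`. Goldfeld (1982) showed that an ASYMPTOTIC formula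
`∏_{p ≤ X} #E(𝔽_p)/p ∼ A (log X)^ρ` implies the Riemann hypothesis for `E` and `ρ = ord_{s=1} F`. Here the two
INEQUALITIES between `ord_{s=1} F` and the rank are treated separately, through bounds from one side only.

For a bounded measurable function `K` on `(0, 1]` let
`S_K(X) = ∑_{p ≤ X, p ∤ 2Δ} K (log p / log X) log (#E(𝔽_p)/p)`, and for `k ∈ L²(0, 1)` let
`M_k(X) = ∫_0^1 k(u) log P(X^u) du = S_K(X)`, `K(v) = ∫_v^1 k`, where `P(x) = ∏_{p ≤ x} #E(𝔽_p)/p` (sharp cut-off;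
`k = 1`: the logarithmic mean of `log P`). For every elliptic curve:

1. (all weights, from above) Let `K(v) → κ` as `v → 0`, and let `K ≥ 0` near the top `β` of its support (or let `F`
  have no real zeros `> 1`). If `S_K(X) ≤ (ρ + o(1)) log log X` for ALMOST all `X`, then `F` has no zeros with
  `Re s > 1` and `κ ord_{s=1} F ≤ ρ`.
2. (all weights, from below) Let `F` have no real zeros `> 1`. If `S_K(X) ≥ (ρ - o(1)) log log X` for almost all
  `X`, then `F` has no zeros with `Re s > 1` and `ρ ≤ κ ord_{s=1} F`.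
3. (means, from above) Let `κ = ∫_0^1 k > 0` and `∫_v^1 k ≥ 0` for all `v` (e.g. `k ≥ 0`). Then
  `F` has no zeros with `Re s > 1` if and only if `M_k(X) ≤ X^ε` for all `ε > 0` and almost all large `X`; and for
  every real `ρ` it is EQUIVALENT that `F` has no zeros with `Re s > 1` and `ord_{s=1} F ≤ ρ`; that
  `M_k(X) ≤ κρ log log X + O(1)`; that `M_k(X) ≤ κ(ρ + o(1)) log log X` for almost all `X`. With `ρ = rank E(ℚ)`: the
  Riemann hypothesis for `E` together with the inequality `ord_{s=1} F ≤ rank E(ℚ)`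
  is equivalent to `M_k(X) ≤ κ rank E(ℚ) log log X + O(1)`.
4. (means, from below) The same with `≥`, for all `k` with `κ > 0`, if the absence of real zeros `> 1` is added on the
  right: the Riemann hypothesis and `rank E(ℚ) ≤ ord_{s=1} F` are equivalent to: no real zeros `> 1` and
  `M_k(X) ≥ κ rank E(ℚ) log log X - O(1)`.

Proof. The function `A e^{αT} - S_K(e^T)` is nonnegative, and its Laplace transform is holomorphic near the real half
line where the multiplicative convolution of `K` with the logarithmic derivative of `F` is; by Landau's theorem the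
Laplace integral converges there. A real zero contributes `m ∫ K(u) (e^{uξT} - 1) du/u` to `S_K(e^T)`; if it is added
to the function above, Landau's theorem shows that the contribution alone would be `O(e^{(ξ-δ)T})` in the mean, which
is absurd if `K ≥ 0` near its top. Therefore there are no real zeros, the transform of `S_K(e^T)` converges
absolutely, and the jump of the convolution across a ray (see `Pool.Agent.R429.DM.Claim`) excludes the other zeros.
The order is read off at `w → 0`. The converse for means is the mean square law (helper270, starting files;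
helper765, `MP_696deb_nt.DensityMeans`).
-/

set_option autoImplicit false

namespace Pool.Agent.Results.MP_ae0bd0_nt.OneSidedGrowth

open Pool.Agent.W263.BSD Filter Topology Classical MeasureTheory Set
open CongruenceSubgroup UpperHalfPlane
open scoped MatrixGroups

/-- `S_K(X)`: the sum of `K (log p / log X) log ((N_p + 1) / p)` over the primes `p ≤ X`, `p ∤ 2Δ`. -/
noncomputable def weighted (a b : ℤ) (K : ℝ → ℝ) (X : ℝ) : ℝ :=
  ∑ p ∈ (Finset.range (⌊X⌋₊ + 1)).filter (GoodPrime a b),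
    K (Real.log p / Real.log X) * Real.log (((pointCount a b p : ℝ) + 1) / p)

/-- `P(x)`: the product of `(N_p + 1) / p` over the primes `p ≤ x`, `p ∤ 2Δ`. -/
noncomputable def product (a b : ℤ) (x : ℝ) : ℝ :=
  ∏ p ∈ (Finset.range (⌊x⌋₊ + 1)).filter (GoodPrime a b), (((pointCount a b p : ℝ) + 1) / p)

/-- `M_k(X) = ∫_0^1 k(u) log P(X^u) du`. -/
noncomputable def mean (a b : ℤ) (k : ℝ → ℝ) (X : ℝ) : ℝ :=
  ∫ u in Ioc (0 : ℝ) 1, k u * Real.log (product a b (X ^ u))

/-- The `n`-th Fourier coefficient of `f`. -/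
noncomputable def coef {N : ℕ} (f : CuspForm (Gamma0 N : Subgroup (GL (Fin 2) ℝ)) 2) (n : ℕ) : ℂ :=
  (qExpansion 1 f).coeff n

/-- `f ∈ S_2(Γ₀(N))` is the newform of the elliptic curve `E : y² = x³ + a x + b` of conductor `N`: the
Fourier coefficients `c(n)` of `f` are real with `c(1) = 1`, they satisfy the Hecke relations
`c(mn) = c(m) c(n)` for coprime `m`, `n` and `c(p^(j+2)) = c(p) c(p^(j+1)) - p c(p^j)` (without the last
term if `p ∣ N`), `c(p) = a_p = p - N_p` (`N_p` affine points) for all primes `p ∤ 2Δ`, `|c(p)| ≤ 2 √p` for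
all `p ∤ N` (Hasse) and `c(p) = 0, 1, -1` for `p ∣ N`. -/
structure IsNewformOf (a b : ℤ) (N : ℕ) (f : CuspForm (Gamma0 N : Subgroup (GL (Fin 2) ℝ)) 2) :
    Prop where
  one : coef f 1 = 1
  real : ∀ n, (coef f n).im = 0
  mul : ∀ m n : ℕ, Nat.Coprime m n → coef f (m * n) = coef f m * coef f n
  pow : ∀ p j : ℕ, p.Prime → coef f (p ^ (j + 2)) = coef f p * coef f (p ^ (j + 1)) -
      (if p ∣ N then 0 else (p : ℂ) * coef f (p ^ j))
  points : ∀ p : ℕ, GoodPrime a b p → coef f p = (p : ℂ) - (pointCount a b p : ℂ)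
  good : ∀ p : ℕ, p.Prime → ¬ p ∣ N → ‖coef f p‖ ≤ 2 * Real.sqrt p
  bad : ∀ p : ℕ, p.Prime → p ∣ N → coef f p = 0 ∨ coef f p = 1 ∨ coef f p = -1

/-- The rank of the group of rational points of `y² = x³ + a x + b`. -/
noncomputable def rank (a b : ℤ) : ℕ :=
  Module.finrank ℤ
    (WeierstrassCurve.Affine.Point
      (WeierstrassCurve.toAffine
        ({ a₁ := 0, a₂ := 0, a₃ := 0, a₄ := (a : ℚ), a₆ := (b : ℚ) } : WeierstrassCurve ℚ)))

/-- `F` has no zeros with `Re s > 1`. -/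
def NoZeros (F : ℂ → ℂ) : Prop := ∀ s : ℂ, 1 < s.re → F s ≠ 0

/-- `F` has no real zeros `> 1`. -/
def NoRealZeros (F : ℂ → ℂ) : Prop := ∀ x : ℝ, 1 < x → F x ≠ 0

/-- The statement `P` holds for almost all (Lebesgue measure) sufficiently large real numbers. -/
def AlmostAllLarge (P : ℝ → Prop) : Prop := ∃ X₀ : ℝ, ∀ᵐ X : ℝ, X₀ ≤ X → P X

/-- `K` is almost everywhere `0` on `(α, β]`. -/
def Vanishes (K : ℝ → ℝ) (α β : ℝ) : Prop := ∀ᵐ u : ℝ, u ∈ Ioc α β → K u = 0

/-- `K` is almost everywhere nonnegative on `(α, β]` for some `α < β`. -/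
def NonnegNear (K : ℝ → ℝ) (β : ℝ) : Prop := ∃ α < β, ∀ᵐ u : ℝ, u ∈ Ioc α β → 0 ≤ K u

/-- `K` is measurable and bounded on `(0, 1]`, `β ∈ (0, 1]` is the essential supremum of its support and `κ` is its
limit at `0`. -/
structure IsWeight (K : ℝ → ℝ) (β κ : ℝ) : Prop where
  meas : Measurable K
  bdd : ∃ M : ℝ, ∀ u ∈ Ioc (0 : ℝ) 1, |K u| ≤ M
  pos : 0 < β
  le_one : β ≤ 1
  top : Vanishes K β 1
  sharp : ∀ α < β, ¬ Vanishes K α β
  lim : Tendsto K (𝓝[>] 0) (𝓝 κ)

theorem hecke {a b : ℤ} {N : ℕ} {f : CuspForm (Gamma0 N : Subgroup (GL (Fin 2) ℝ)) 2}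
    (hf : IsNewformOf a b N f) : Pool.Agent.TH941.Hecke f where
  one := hf.one
  real := hf.real
  mul := hf.mul
  pow := hf.pow
  good := hf.good
  bad := fun p hp h => by
    rcases hf.bad p hp h with h1 | h1 | h1
    · have h2 : ‖coef f p‖ ≤ 1 := by rw [h1]; simp
      exact h2
    · have h2 : ‖coef f p‖ ≤ 1 := by rw [h1]; simp
      exact h2
    · have h2 : ‖coef f p‖ ≤ 1 := by rw [h1]; simp
      exact h2

theorem vanishes_iff (K : ℝ → ℝ) (α β : ℝ) : Vanishes K α β ↔ ∀ᵐ u : ℝ, u ∈ Ioo α β → K u = 0 := by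
  unfold Vanishes
  constructor
  · intro h
    filter_upwards [h] with u h1 h2
    exact h1 ⟨h2.1, h2.2.le⟩
  · intro h
    have hne : ∀ᵐ u : ℝ, u ≠ β := by rw [ae_iff]; simp
    filter_upwards [h, hne] with u h1 h2 h3
    exact h1 ⟨h3.1, lt_of_le_of_ne h3.2 h2⟩

/-- only the values of the weight on `(0, 1]` matter -/
theorem weighted_congr (a b : ℤ) {K K' : ℝ → ℝ} (h : ∀ u ∈ Ioc (0 : ℝ) 1, K u = K' u) (X : ℝ) :
    weighted a b K X = Pool.Agent.R429.DM.wtd a b K' X := by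
  unfold weighted Pool.Agent.R429.DM.wtd
  refine Finset.sum_congr rfl fun p hp => ?_
  rw [Finset.mem_filter, Finset.mem_range] at hp
  have hp2 : 2 ≤ p := hp.2.1.two_le
  have hX : 0 ≤ X := by
    by_contra h
    push Not at h
    rw [Nat.floor_of_nonpos h.le] at hp
    omega
  have hpX : (p : ℝ) ≤ X := by
    have h2 : (p : ℝ) ≤ (⌊X⌋₊ : ℝ) := by exact_mod_cast (by omega : p ≤ ⌊X⌋₊)
    exact h2.trans (Nat.floor_le hX)
  have hp1 : (1 : ℝ) < p := by exact_mod_cast (by omega : 1 < p)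
  have h1 : 0 < Real.log p := Real.log_pos hp1
  have h2 : Real.log p ≤ Real.log X := Real.log_le_log (by linarith) hpX
  have h3 : 0 < Real.log X := by linarith
  rw [h]
  exact ⟨by positivity, by rw [div_le_one h3]; exact h2⟩

/-- the weight, extended by zero -/
theorem ext_weight {K : ℝ → ℝ} {β κ : ℝ} (h : IsWeight K β κ) :
    ∃ (K' : ℝ → ℝ) (M : ℝ), (∀ u ∈ Ioc (0 : ℝ) 1, K u = K' u) ∧ Measurable K' ∧ (∀ u, |K' u| ≤ M) ∧
      (∀ᵐ u : ℝ, u ∈ Ioo β 1 → K' u = 0) ∧
      (∀ δ : ℝ, 0 < δ → ¬ ∀ᵐ u : ℝ, u ∈ Ioo (β - δ) β → K' u = 0) ∧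
      Tendsto K' (𝓝[>] 0) (𝓝 κ) ∧
      (NonnegNear K β → ∃ α < β, ∀ᵐ u : ℝ, u ∈ Ioo α β → 0 ≤ K' u) := by
  obtain ⟨M, hM⟩ := h.bdd
  have hkk : ∀ u ∈ Ioc (0 : ℝ) 1, K u = (Ioc (0 : ℝ) 1).indicator K u := fun u hu =>
    (indicator_of_mem hu K).symm
  have hβ0 := h.pos
  have hβ1 := h.le_one
  refine ⟨(Ioc (0 : ℝ) 1).indicator K, max M 0, hkk, h.meas.indicator measurableSet_Ioc,
    fun u => ?_, ?_, fun δ hδ h' => ?_, ?_, ?_⟩
  · by_cases hu : u ∈ Ioc (0 : ℝ) 1
    · rw [indicator_of_mem hu]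
      exact (hM u hu).trans (le_max_left _ _)
    · rw [indicator_of_notMem hu, abs_zero]
      exact le_max_right _ _
  · have hv := h.top
    unfold Vanishes at hv
    filter_upwards [hv] with u h1 h2
    rw [← hkk u ⟨by linarith [h2.1], h2.2.le⟩]
    exact h1 ⟨h2.1, h2.2.le⟩
  · refine h.sharp (max (β - δ) 0) (max_lt (by linarith) hβ0) ?_
    rw [vanishes_iff]
    filter_upwards [h'] with u h1 h2
    have h3 : β - δ < u := lt_of_le_of_lt (le_max_left _ _) h2.1
    have h4 : 0 < u := lt_of_le_of_lt (le_max_right _ _) h2.1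
    rw [hkk u ⟨h4, by linarith [h2.2]⟩]
    exact h1 ⟨h3, h2.2⟩
  · refine h.lim.congr' ?_
    filter_upwards [Ioc_mem_nhdsGT (show (0 : ℝ) < 1 by norm_num)] with u hu
    exact hkk u hu
  · rintro ⟨α, hα, h1⟩
    refine ⟨max α 0, max_lt hα hβ0, ?_⟩
    filter_upwards [h1] with u h2 h3
    rw [← hkk u ⟨lt_of_le_of_lt (le_max_right _ _) h3.1, by linarith [h3.2]⟩]
    exact h2 ⟨lt_of_le_of_lt (le_max_left _ _) h3.1, h3.2.le⟩

theorem loglog_tendsto : Tendsto (fun X : ℝ => Real.log (Real.log X)) atTop atTop :=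
  Real.tendsto_log_atTop.comp Real.tendsto_log_atTop

theorem AlmostAllLarge.of_eventually {P : ℝ → Prop} (h : ∀ᶠ X : ℝ in atTop, P X) :
    AlmostAllLarge P := by
  obtain ⟨X₀, hX₀⟩ := eventually_atTop.1 h
  exact ⟨X₀, ae_of_all _ hX₀⟩

theorem AlmostAllLarge.mono' {P Q : ℝ → Prop} (h : AlmostAllLarge P)
    (h' : ∀ᶠ X : ℝ in atTop, P X → Q X) : AlmostAllLarge Q := by
  obtain ⟨X₀, hX₀⟩ := h
  obtain ⟨X₁, hX₁⟩ := eventually_atTop.1 h'
  refine ⟨max X₀ X₁, ?_⟩
  filter_upwards [hX₀] with X h1 h2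
  exact hX₁ X ((le_max_right _ _).trans h2) (h1 ((le_max_left _ _).trans h2))

/-- `log log X` is smaller than any power -/
theorem loglog_le {ε C D : ℝ} (hε : 0 < ε) :
    ∀ᶠ X : ℝ in atTop, C * Real.log (Real.log X) + D ≤ X ^ ε := by
  filter_upwards [Pool.Agent.R429.DM.loglog_o hε (C + |D|), loglog_tendsto.eventually_ge_atTop 1] with
    X h1 h2
  have h3 := le_abs_self D
  have h4 : |D| * 1 ≤ |D| * Real.log (Real.log X) := mul_le_mul_of_nonneg_left h2 (abs_nonneg D)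
  linarith

/-- **The two inequalities of the conjecture of Birch and Swinnerton-Dyer and one-sided growth.** -/
theorem result (a b : ℤ) (hΔ : 4 * a ^ 3 + 27 * b ^ 2 ≠ 0) (F : ℂ → ℂ) (hF : IsLSeries a b F)
    (N : ℕ) [NeZero N] (f : CuspForm (Gamma0 N : Subgroup (GL (Fin 2) ℝ)) 2)
    (hf : IsNewformOf a b N f) :
    -- all weights, bounds from above
    (∀ (K : ℝ → ℝ) (β κ ρ : ℝ), IsWeight K β κ → NonnegNear K β ∨ NoRealZeros F →
      (∀ ε : ℝ, 0 < ε → AlmostAllLarge fun X : ℝ =>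
        weighted a b K X ≤ (ρ + ε) * Real.log (Real.log X)) →
      NoZeros F ∧ ∃ m : ℕ, analyticOrderAt F 1 = m ∧ κ * m ≤ ρ) ∧
    -- all weights, bounds from below
    (∀ (K : ℝ → ℝ) (β κ ρ : ℝ), IsWeight K β κ → NoRealZeros F →
      (∀ ε : ℝ, 0 < ε → AlmostAllLarge fun X : ℝ =>
        (ρ - ε) * Real.log (Real.log X) ≤ weighted a b K X) →
      NoZeros F ∧ ∃ m : ℕ, analyticOrderAt F 1 = m ∧ ρ ≤ κ * m) ∧
    ∀ (k : ℝ → ℝ), MemLp k 2 (volume.restrict (Ioc (0 : ℝ) 1)) →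
      ∀ κ : ℝ, κ = ∫ u in Ioc (0 : ℝ) 1, k u → 0 < κ →
      -- means, bounds from above
      ((∀ v ∈ Icc (0 : ℝ) 1, 0 ≤ ∫ u in Ioc v 1, k u) →
        (NoZeros F ↔ ∀ ε : ℝ, 0 < ε → AlmostAllLarge fun X : ℝ => mean a b k X ≤ X ^ ε) ∧
        (∀ ρ : ℝ, List.TFAE [
          NoZeros F ∧ ∃ m : ℕ, (m : ℝ) ≤ ρ ∧ analyticOrderAt F 1 = m,
          ∃ B : ℝ, ∀ᶠ X : ℝ in atTop, mean a b k X ≤ κ * ρ * Real.log (Real.log X) + B,
          ∀ ε : ℝ, 0 < ε → AlmostAllLarge fun X : ℝ =>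
            mean a b k X ≤ κ * (ρ + ε) * Real.log (Real.log X)]) ∧
        ((NoZeros F ∧ analyticOrderAt F 1 ≤ rank a b) ↔ ∃ B : ℝ, ∀ᶠ X : ℝ in atTop,
          mean a b k X ≤ κ * rank a b * Real.log (Real.log X) + B)) ∧
      -- means, bounds from below
      (NoZeros F ↔ NoRealZeros F ∧
        ∀ ε : ℝ, 0 < ε → AlmostAllLarge fun X : ℝ => -X ^ ε ≤ mean a b k X) ∧
      (∀ ρ : ℝ, List.TFAE [
        NoZeros F ∧ ∃ m : ℕ, ρ ≤ m ∧ analyticOrderAt F 1 = m,
        NoRealZeros F ∧ ∃ B : ℝ, ∀ᶠ X : ℝ in atTop,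
          κ * ρ * Real.log (Real.log X) - B ≤ mean a b k X,
        NoRealZeros F ∧ ∀ ε : ℝ, 0 < ε → AlmostAllLarge fun X : ℝ =>
          κ * (ρ - ε) * Real.log (Real.log X) ≤ mean a b k X]) ∧
      ((NoZeros F ∧ rank a b ≤ analyticOrderAt F 1) ↔ NoRealZeros F ∧ ∃ B : ℝ,
        ∀ᶠ X : ℝ in atTop, κ * rank a b * Real.log (Real.log X) - B ≤ mean a b k X) := by
  have hno : NoZeros F → NoRealZeros F := fun h x hx => h x (by simpa using hx)
  have up : ∀ (K : ℝ → ℝ) (β κ ρ : ℝ), IsWeight K β κ → NonnegNear K β ∨ NoRealZeros F →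
      (∀ ε : ℝ, 0 < ε → AlmostAllLarge fun X : ℝ =>
        weighted a b K X ≤ (ρ + ε) * Real.log (Real.log X)) →
      NoZeros F ∧ ∃ m : ℕ, analyticOrderAt F 1 = m ∧ κ * m ≤ ρ := by
    intro K β κ ρ hK hcase h
    obtain ⟨K', M, e1, e2, e3, e4, e5, e6, e7⟩ := ext_weight hK
    simp only [weighted_congr a b e1] at h
    exact Pool.Agent.R429.DM.wtd_up_order hF e2 e3 e6 hK.pos hK.le_one e4 e5
      (hcase.imp e7 id) h
  have down : ∀ (K : ℝ → ℝ) (β κ ρ : ℝ), IsWeight K β κ → NoRealZeros F →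
      (∀ ε : ℝ, 0 < ε → AlmostAllLarge fun X : ℝ =>
        (ρ - ε) * Real.log (Real.log X) ≤ weighted a b K X) →
      NoZeros F ∧ ∃ m : ℕ, analyticOrderAt F 1 = m ∧ ρ ≤ κ * m := by
    intro K β κ ρ hK hr h
    obtain ⟨K', M, e1, e2, e3, e4, e5, e6, e7⟩ := ext_weight hK
    simp only [weighted_congr a b e1] at h
    exact Pool.Agent.R429.DM.wtd_down_order hF e2 e3 e6 hK.pos hK.le_one e4 e5 hr h
  refine ⟨up, down, fun k hk κ hκ hκ0 => ?_⟩
  -- the weight of the mean
  have hrs : Tendsto (rsSum a b) atTop (𝓝 0) :=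
    (hecke hf).rsSum_tendsto hΔ fun p hp => hf.points p hp
  obtain ⟨C₀, n₀, hg⟩ := Pool.Agent.TH270.MS.EQ.growth_F hΔ hF (hecke hf) fun p hp => hf.points p hp
  have hki : IntegrableOn k (Ioc 0 1) := hk.integrable (by norm_num)
  have hmean : ∀ X : ℝ, mean a b k X = Pool.Agent.R765.DM.dmean a b k X := fun X => rfl
  obtain ⟨m₀, hm₀⟩ := Pool.Agent.W189.ML.order_finite_all hF 1
  set ℓ : ℝ := ∫ u in Ioc (0 : ℝ) 1, k u * Real.log u with hℓ
  have law : NoZeros F →
      Tendsto (fun X : ℝ => mean a b k X - κ * m₀ * Real.log (Real.log X)) atTop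
        (𝓝 (κ * Real.log (√2 * Real.exp (m₀ * Real.eulerMascheroniConstant) * m₀.factorial /
          (iteratedDeriv m₀ F 1).re) + m₀ * ℓ)) := by
    intro hz
    rw [hκ, hℓ]
    exact Pool.Agent.R765.DM.law_of_rh hΔ hF hrs (by norm_num : (0 : ℝ) < 1 / 8) hg hz hm₀ hk
  have hsum : ∀ X : ℝ, 1 < X → mean a b k X =
      ∑ p ∈ (Finset.range (⌊X⌋₊ + 1)).filter (GoodPrime a b),
      (∫ u in Ioc (Real.log p / Real.log X) 1, k u) *
        Real.log (((pointCount a b p : ℝ) + 1) / p) := fun X hX =>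
    Pool.Agent.R765.DM.dmean_eq_sum hki hX
  set K := Pool.Agent.R429.DM.kK k with hK
  have hKm : Measurable K := (Pool.Agent.R429.DM.kK_cont hki).measurable
  have hKM := Pool.Agent.R429.DM.kK_bdd hki
  have hKlim : Tendsto K (𝓝[>] 0) (𝓝 κ) := by
    have h1 := (Pool.Agent.R429.DM.kK_cont hki).tendsto 0
    rw [Pool.Agent.R429.DM.kK_zero, ← hκ] at h1
    exact h1.mono_left nhdsWithin_le_nhds
  have hK0 : ¬ ∀ᵐ u : ℝ, u ∈ Ioc (0 : ℝ) 1 → K u = 0 := by
    intro h
    -- the limit at zero is positive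
    have h1 : ∀ᶠ u in 𝓝[>] (0 : ℝ), 0 < K u := hKlim.eventually_const_lt hκ0
    obtain ⟨δ, hδ, hδ'⟩ := mem_nhdsGT_iff_exists_Ioo_subset.1 h1
    have hδ0 : (0 : ℝ) < δ := hδ
    rw [ae_iff] at h
    have h2 : Ioo 0 (min δ 1) ⊆ {u : ℝ | ¬ (u ∈ Ioc (0 : ℝ) 1 → K u = 0)} := by
      intro u hu
      simp only [mem_ofPred_eq, Classical.not_imp]
      refine ⟨⟨hu.1, hu.2.le.trans (min_le_right _ _)⟩, ?_⟩
      have : 0 < K u := hδ' ⟨hu.1, lt_of_lt_of_le hu.2 (min_le_left _ _)⟩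
      exact this.ne'
    have h3 := measure_mono_null h2 h
    rw [Real.volume_Ioo, ENNReal.ofReal_eq_zero] at h3
    have : 0 < min δ 1 := lt_min hδ0 one_pos
    linarith
  obtain ⟨β, hβ0, hβ1, hβz, hβn⟩ := Pool.Agent.R429.DM.exists_beta hK0
  have hW : IsWeight K β κ := by
    refine ⟨hKm, ⟨_, fun u _ => hKM u⟩, hβ0, hβ1, (vanishes_iff K β 1).2 hβz, fun α hα h => ?_,
      hKlim⟩
    refine hβn (β - α) (by linarith) ?_
    rw [vanishes_iff] at h
    rwa [sub_sub_cancel]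
  have hw : ∀ X : ℝ, 1 < X → weighted a b K X = mean a b k X := by
    intro X hX
    rw [hsum X hX]
    unfold weighted
    refine Finset.sum_congr rfl fun p hp => ?_
    rw [Finset.mem_filter, Finset.mem_range] at hp
    have hp1 : (1 : ℝ) ≤ p := by exact_mod_cast hp.2.1.one_le
    have hpX : (p : ℝ) ≤ X := by
      have h2 : (p : ℝ) ≤ (⌊X⌋₊ : ℝ) := by exact_mod_cast (by omega : p ≤ ⌊X⌋₊)
      exact h2.trans (Nat.floor_le (by linarith))
    have h1 : 0 ≤ Real.log p := Real.log_nonneg hp1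
    have h2 : Real.log p ≤ Real.log X := Real.log_le_log (by linarith) hpX
    have h3 : 0 < Real.log X := Real.log_pos hX
    rw [hK, Pool.Agent.R429.DM.kK_eq (by positivity) (by rw [div_le_one h3]; exact h2)]
  have hwe : ∀ᶠ X : ℝ in atTop, weighted a b K X = mean a b k X := by
    filter_upwards [eventually_gt_atTop 1] with X hX
    exact hw X hX
  -- bounds for all large `X` in the absence of zeros
  obtain ⟨B₀, hB₀⟩ : ∃ B : ℝ, NoZeros F → ∀ᶠ X : ℝ in atTop,
      |mean a b k X - κ * m₀ * Real.log (Real.log X)| ≤ B := by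
    by_cases hz : NoZeros F
    · set L := κ * Real.log (√2 * Real.exp (m₀ * Real.eulerMascheroniConstant) * m₀.factorial /
          (iteratedDeriv m₀ F 1).re) + m₀ * ℓ with hL
      refine ⟨|L| + 1, fun _ => ?_⟩
      filter_upwards [(law hz).abs.eventually_lt_const (show |L| < |L| + 1 by linarith)] with X hX
      exact hX.le
    · exact ⟨0, fun h => absurd h hz⟩
  have hll : ∀ᶠ X : ℝ in atTop, 1 ≤ Real.log (Real.log X) := loglog_tendsto.eventually_ge_atTop 1
  -- zero-free half planes from powers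
  have wt : ∀ X : ℝ, weighted a b K X = Pool.Agent.R429.DM.wtd a b K X := fun X =>
    weighted_congr a b (fun u _ => rfl) X
  have hcap : ∀ ρ : ℝ, (∀ ε : ℝ, 0 < ε → AlmostAllLarge fun X : ℝ =>
      mean a b k X ≤ κ * (ρ + ε) * Real.log (Real.log X)) → ∀ ε : ℝ, 0 < ε → AlmostAllLarge fun X : ℝ =>
        weighted a b K X ≤ (κ * ρ + ε) * Real.log (Real.log X) := by
    intro ρ h ε hε
    refine (h (ε / κ) (by positivity)).mono' ?_
    filter_upwards [hwe] with X h1 h2
    rw [h1]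
    have e : κ * (ρ + ε / κ) = κ * ρ + ε := by field_simp
    rwa [e] at h2
  have hcap' : ∀ ρ : ℝ, (∀ ε : ℝ, 0 < ε → AlmostAllLarge fun X : ℝ =>
      κ * (ρ - ε) * Real.log (Real.log X) ≤ mean a b k X) → ∀ ε : ℝ, 0 < ε → AlmostAllLarge fun X : ℝ =>
        (κ * ρ - ε) * Real.log (Real.log X) ≤ weighted a b K X := by
    intro ρ h ε hε
    refine (h (ε / κ) (by positivity)).mono' ?_
    filter_upwards [hwe] with X h1 h2
    rw [h1]
    have e : κ * (ρ - ε / κ) = κ * ρ - ε := by field_simp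
    rwa [e] at h2
  refine ⟨fun hpos => ?_, ?_, ?_⟩
  · have hnn : NonnegNear K β := by
      refine ⟨0, hβ0, ae_of_all _ fun u hu => ?_⟩
      rw [hK, Pool.Agent.R429.DM.kK_eq hu.1.le (hu.2.trans hβ1)]
      exact hpos u ⟨hu.1.le, hu.2.trans hβ1⟩
    have htfae : ∀ ρ : ℝ, List.TFAE [
          NoZeros F ∧ ∃ m : ℕ, (m : ℝ) ≤ ρ ∧ analyticOrderAt F 1 = m,
          ∃ B : ℝ, ∀ᶠ X : ℝ in atTop, mean a b k X ≤ κ * ρ * Real.log (Real.log X) + B,
          ∀ ε : ℝ, 0 < ε → AlmostAllLarge fun X : ℝ =>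
            mean a b k X ≤ κ * (ρ + ε) * Real.log (Real.log X)] := by
      intro ρ
      tfae_have 1 → 2 := by
        rintro ⟨hz, m, hm, hm'⟩
        have h1 : m = m₀ := by
          rw [hm₀] at hm'
          exact_mod_cast hm'.symm
        rw [h1] at hm
        refine ⟨B₀, ?_⟩
        filter_upwards [hB₀ hz, hll] with X h2 h3
        have h4 := (abs_le.1 h2).2
        have h5 : κ * m₀ * Real.log (Real.log X) ≤ κ * ρ * Real.log (Real.log X) :=
          mul_le_mul_of_nonneg_right (mul_le_mul_of_nonneg_left hm hκ0.le) (by linarith)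
        linarith
      tfae_have 2 → 3 := by
        rintro ⟨B, hB⟩ ε hε
        refine AlmostAllLarge.of_eventually ?_
        filter_upwards [hB, loglog_tendsto.eventually_ge_atTop (B / (κ * ε))] with X h1 h2
        rw [div_le_iff₀ (by positivity)] at h2
        linarith
      tfae_have 3 → 1 := by
        intro h
        obtain ⟨hz, m, hm, h1⟩ := up K β κ (κ * ρ) hW (Or.inl hnn) (hcap ρ h)
        exact ⟨hz, m, le_of_mul_le_mul_left h1 hκ0, hm⟩
      tfae_finish
    refine ⟨⟨fun hz ε hε => ?_, fun h => ?_⟩, htfae, ?_⟩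
    · refine AlmostAllLarge.of_eventually ?_
      filter_upwards [hB₀ hz, loglog_le (C := κ * m₀) (D := B₀) hε] with X h1 h2
      linarith [(abs_le.1 h1).2]
    · have h1 := Pool.Agent.R429.DM.wtd_up_zero_free hF hKm hKM (y := 0) le_rfl hβ0 hβ1 hβz hβn
        (Or.inl (by
          obtain ⟨α, hα, h2⟩ := hnn
          refine ⟨α, hα, ?_⟩
          filter_upwards [h2] with u h3 h4
          exact h3 ⟨h4.1, h4.2.le⟩)) (fun ε hε => by
          rw [mul_zero, zero_add]
          have h2 := (h ε hε).mono' (Q := fun X => Pool.Agent.R429.DM.wtd a b K X ≤ X ^ ε) (by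
            filter_upwards [hwe] with X h3 h4
            rw [← wt, h3]
            exact h4)
          exact h2)
      exact fun s hs => h1 s (by linarith)
    · have h01 : (NoZeros F ∧ ∃ m : ℕ, (m : ℝ) ≤ (rank a b : ℝ) ∧ analyticOrderAt F 1 = m) ↔
          ∃ B : ℝ, ∀ᶠ X : ℝ in atTop,
            mean a b k X ≤ κ * rank a b * Real.log (Real.log X) + B := (htfae (rank a b)).out 0 1
      rw [← h01]
      constructor
      · rintro ⟨hz, h⟩
        refine ⟨hz, m₀, ?_, hm₀⟩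
        rw [hm₀] at h
        exact_mod_cast h
      · rintro ⟨hz, m, h1, h2⟩
        refine ⟨hz, ?_⟩
        rw [h2]
        exact_mod_cast h1
  · refine ⟨fun hz => ⟨hno hz, fun ε hε => ?_⟩, ?_⟩
    · refine AlmostAllLarge.of_eventually ?_
      filter_upwards [hB₀ hz, loglog_le (C := 0) (D := B₀) hε, hll] with X h1 h2 h3
      have h4 : 0 ≤ κ * m₀ * Real.log (Real.log X) := by positivity
      linarith [(abs_le.1 h1).1]
    · rintro ⟨hr, h⟩
      have h1 := Pool.Agent.R429.DM.wtd_down_zero_free hF hKm hKM (y := 0) le_rfl hβ0 hβ1 hβz hβn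
        (fun x hx => hr x (by linarith)) (fun ε hε => by
          rw [mul_zero, zero_add]
          have h2 := (h ε hε).mono' (Q := fun X => -X ^ ε ≤ Pool.Agent.R429.DM.wtd a b K X) (by
            filter_upwards [hwe] with X h3 h4
            rw [← wt, h3]
            exact h4)
          exact h2)
      exact fun s hs => h1 s (by linarith)
  · have htfae : ∀ ρ : ℝ, List.TFAE [
        NoZeros F ∧ ∃ m : ℕ, ρ ≤ m ∧ analyticOrderAt F 1 = m,
        NoRealZeros F ∧ ∃ B : ℝ, ∀ᶠ X : ℝ in atTop,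
          κ * ρ * Real.log (Real.log X) - B ≤ mean a b k X,
        NoRealZeros F ∧ ∀ ε : ℝ, 0 < ε → AlmostAllLarge fun X : ℝ =>
          κ * (ρ - ε) * Real.log (Real.log X) ≤ mean a b k X] := by
      intro ρ
      tfae_have 1 → 2 := by
        rintro ⟨hz, m, hm, hm'⟩
        have h1 : m = m₀ := by
          rw [hm₀] at hm'
          exact_mod_cast hm'.symm
        rw [h1] at hm
        refine ⟨hno hz, B₀, ?_⟩
        filter_upwards [hB₀ hz, hll] with X h2 h3
        have h4 := (abs_le.1 h2).1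
        have h5 : κ * ρ * Real.log (Real.log X) ≤ κ * m₀ * Real.log (Real.log X) :=
          mul_le_mul_of_nonneg_right (mul_le_mul_of_nonneg_left hm hκ0.le) (by linarith)
        linarith
      tfae_have 2 → 3 := by
        rintro ⟨hr, B, hB⟩
        refine ⟨hr, fun ε hε => AlmostAllLarge.of_eventually ?_⟩
        filter_upwards [hB, loglog_tendsto.eventually_ge_atTop (B / (κ * ε))] with X h1 h2
        rw [div_le_iff₀ (by positivity)] at h2
        linarith
      tfae_have 3 → 1 := by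
        rintro ⟨hr, h⟩
        obtain ⟨hz, m, hm, h1⟩ := down K β κ (κ * ρ) hW hr (hcap' ρ h)
        exact ⟨hz, m, le_of_mul_le_mul_left h1 hκ0, hm⟩
      tfae_finish
    refine ⟨htfae, ?_⟩
    have h01 : (NoZeros F ∧ ∃ m : ℕ, (rank a b : ℝ) ≤ m ∧ analyticOrderAt F 1 = m) ↔
        NoRealZeros F ∧ ∃ B : ℝ, ∀ᶠ X : ℝ in atTop,
          κ * rank a b * Real.log (Real.log X) - B ≤ mean a b k X := (htfae (rank a b)).out 0 1
    rw [← h01]
    constructor
    · rintro ⟨hz, h⟩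
      refine ⟨hz, m₀, ?_, hm₀⟩
      rw [hm₀] at h
      exact_mod_cast h
    · rintro ⟨hz, m, h1, h2⟩
      refine ⟨hz, ?_⟩
      rw [h2]
      exact_mod_cast h1

end Pool.Agent.Results.MP_ae0bd0_nt.OneSidedGrowth
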