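import Pool.Agent.R426.QB.Mq
import Pool.Agent.R426.QB.Fld
import Pool.Agent.Y687.JQ.Fin

/-!
# Twists of the CM curve `X_0(49)` over multiquadratic fields, also over those with `√-7`: rank zero,
# order zero, a `2`-converse theorem, and the exact joint proportion

`E_D` is the quadratic twist by `D` of `X_0(49) : y² + x y = x³ - x² - 2 x - 1`, an elliptic curve with
complex multiplication by `ℤ[(1 + √-7) / 2]`. The class `Adm` consists of the squarefree `D ≥ 1` all of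
whose prime factors are `1 mod 8` and split in `ℚ(√-7)`, or `5 mod 8` and inert in `ℚ(√-7)`; `D` is good
if moreover `E_D(ℚ)` is finite and `Ш(E_D/ℚ)[2] = 0`. A pair of `M` and `ℚ(√d_1, …, √d_n)` is good if all
the numbers `M ∏_{i ∈ T} d_i` are good up to squares and up to the factor `-7` (the twists by `D` and by
`-7 D` are isogenous).
* For a good pair, for `K = ℚ(√d_1, …, √d_n)` and for `K = ℚ(√-7, √d_1, …, √d_n)`, the group `E_M(K)` is
  finite and the function `L(E_M/K, s)` is entire with `L(E_M/K, 1) ≠ 0`: this is the conjecture for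
  `E_M` over `K`, and no hypothesis is made on `L(E_M/K, s)`, only on the rational points and on the
  `2`-torsion of the Tate-Shafarevich groups of the `2ⁿ` curves over `ℚ`.
* For every `M` and every such field, exactly the proportion `c ^ (2 ^ n)` of the `D ≡ 1 mod 8` of the
  class makes the pair of `M D` and of the field good, with `c = ∏ (1 - 2 ^ (-2 i - 1)) = 0.419…`.
* If the pair of `M` and `ℚ(√d_1, …, √d_n)` is good, then for exactly the proportion `c ^ (2 ^ n)` of the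
  `D ≡ 1 mod 8` of the class the pair of `M` and `ℚ(√d_1, …, √d_n, √D)` is good. So there are such
  fields of all degrees over each good field.

Proof. `L(E_D, 1)` is, up to a power of two and modulo the primes above two, the determinant of a matrix
over `𝔽₂` made of the quadratic residue symbols between the prime factors of `D` and of the quartic
symbols of `-7` (central values by `℘`-functions at division points, starting files `Y698/SG`); a
`2`-descent over `ℚ(√-7)` and explicit elements of `Ш` show that the same matrix decides if `D` is good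
(`R428/Q0`, helper428). The proportion is the joint distribution of such matrices for the symmetric
differences with `2ⁿ` fixed sets of primes (starting files `Y687/JQ`).
-/

set_option autoImplicit false

open NumberField IsDedekindDomain Filter Topology

namespace Pool.Agent.Results.MP_ae0bd0_nt.TwoConverseX49

/-- the curve `E_D : y² + x y = x³ - ((3 D + 1) / 4) x² - 2 D² x - D³` over `ℚ`, the quadratic twist
by `D` of `X_0(49) : y² + x y = x³ - x² - 2 x - 1` -/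
def E (D : ℕ) : WeierstrassCurve ℚ :=
  { a₁ := 1, a₂ := -((3 * (D : ℚ) + 1) / 4), a₃ := 0, a₄ := -2 * (D : ℚ) ^ 2, a₆ := -(D : ℚ) ^ 3 }

/-- `E_D(ℚ)` is finite and `Ш(E_D/ℚ)` has no element of order two -/
def RankZeroShaTwo (D : ℕ) : Prop :=
  Finite (E D).toAffine.Point ∧ ∀ x : Pool.Agent.TH841.NF.D.Sha (E D), 2 • x = 0 → x = 0

/-- primes which split in `ℚ(√-7)` and are `1 mod 8` -/
def Split (p : ℕ) : Prop := p % 8 = 1 ∧ (p % 7 = 1 ∨ p % 7 = 2 ∨ p % 7 = 4)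

/-- primes inert in `ℚ(√-7)` which are `5 mod 8` -/
def Inert (q : ℕ) : Prop := q % 8 = 5 ∧ (q % 7 = 3 ∨ q % 7 = 5 ∨ q % 7 = 6)

/-- the class of the numbers `D` -/
def Adm (D : ℕ) : Prop := Squarefree D ∧ ∀ p : ℕ, p.Prime → p ∣ D → Split p ∨ Inert p

/-- the good numbers -/
def Good (D : ℕ) : Prop := Adm D ∧ RankZeroShaTwo D

/-- `z` is `D` or `-7 D` up to nonzero squares -/
def UpTo (z : ℤ) (D : ℕ) : Prop := ∃ k : ℤ, k ≠ 0 ∧ (z = D * k ^ 2 ∨ z = -7 * D * k ^ 2)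

/-- no product of some of the `d_i` is a square or `-7` times a square: `ℚ(√-7, √d_1, …, √d_n)` has
degree `2 ^ (n + 1)` -/
def Ind {n : ℕ} (d : Fin n → ℤ) : Prop := ∀ T : Finset (Fin n), T.Nonempty →
  ¬ IsSquare (∏ i ∈ T, d i) ∧ ¬ IsSquare (-7 * ∏ i ∈ T, d i)

/-- the good pairs `(M, d)`: all numbers `M ∏_{i ∈ T} d_i` are good up to squares and to the
factor `-7` -/
def GoodPair {n : ℕ} (M : ℤ) (d : Fin n → ℤ) : Prop :=
  Ind d ∧ ∀ T : Finset (Fin n), ∃ D : ℕ, Good D ∧ UpTo (M * ∏ i ∈ T, d i) D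

/-- `K = ℚ(√d_1, …, √d_n)` -/
def IsMultiquadratic {n : ℕ} (d : Fin n → ℤ) (K : Type) [Field K] [NumberField K] : Prop :=
  ∃ x : Fin n → K, (∀ i, x i ^ 2 = (d i : K)) ∧ IntermediateField.adjoin ℚ (Set.range x) = ⊤

/-- the group `E_M(K)`, with the equation `y² = x³ - 35 M² x - 98 M³` -/
abbrev EK (K : Type) [Field K] (M : ℤ) : Type :=
  WeierstrassCurve.Affine.Point (WeierstrassCurve.toAffine
    ({ a₁ := 0, a₂ := 0, a₃ := 0, a₄ := ((-35 * M ^ 2 : ℤ) : K), a₆ := ((-98 * M ^ 3 : ℤ) : K) } :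
      WeierstrassCurve K))

/-- the number `q_v` of elements of the residue field of a finite place `v` of `K` -/
noncomputable def qv (K : Type) [Field K] (v : HeightOneSpectrum (𝓞 K)) : ℕ :=
  Nat.card (𝓞 K ⧸ v.asIdeal)

/-- `a_v = q_v + 1 - #E_M(k_v)`, that is `q_v` minus the number of affine points -/
noncomputable def av (K : Type) [Field K] (M : ℤ) (v : HeightOneSpectrum (𝓞 K)) : ℤ :=
  (qv K v : ℤ) - Nat.card {z : (𝓞 K ⧸ v.asIdeal) × (𝓞 K ⧸ v.asIdeal) //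
    z.2 ^ 2 = z.1 ^ 3 + ((-35 * M ^ 2 : ℤ) : 𝓞 K ⧸ v.asIdeal) * z.1 +
      ((-98 * M ^ 3 : ℤ) : 𝓞 K ⧸ v.asIdeal)}

open Classical in
/-- `F` is entire and is, for `Re s > 3/2`, the `L`-function of `E_M` over `K` without the Euler
factors at the places `v ∣ 14 M m` -/
def IsL (K : Type) [Field K] (M m : ℤ) (F : ℂ → ℂ) : Prop :=
  Differentiable ℂ F ∧ ∀ s : ℂ, (3 : ℝ) / 2 < s.re →
    HasProd (fun v : HeightOneSpectrum (𝓞 K) =>
      if ((14 * M * m : ℤ) : 𝓞 K) ∈ v.asIdeal then 1 else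
        (1 - (av K M v : ℂ) * (qv K v : ℂ) ^ (-s) + (qv K v : ℂ) ^ (1 - 2 * s))⁻¹) (F s)

/-- the conjecture over `K`, with rank and order zero: `E_M(K)` is finite, the L-function `L(E_M/K, s)`
is entire, and its value at `1` is not zero -/
def BSDZero (K : Type) [Field K] (M m : ℤ) : Prop :=
  Finite (EK K M) ∧ (∃ F : ℂ → ℂ, IsL K M m F) ∧ ∀ F : ℂ → ℂ, IsL K M m F → F 1 ≠ 0

/-- `z` is, up to squares and to the factor `-7`, in the class -/
def AdmUpTo (z : ℤ) : Prop := ∃ D : ℕ, Adm D ∧ UpTo z D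

/-- the proportion `(1 - 1/2) (1 - 1/8) (1 - 1/32) ⋯` -/
noncomputable def c : ℝ := ∏' i : ℕ, (1 - (1 / 2 : ℝ) ^ (2 * i + 1))

open Classical in
/-- the proportion of the `D ≤ X` with `P D` among those of the class with `D ≡ 1 mod 8` -/
noncomputable def prop (P : ℕ → Prop) (X : ℕ) : ℝ :=
  (((Finset.Icc 1 X).filter fun D : ℕ => (Adm D ∧ D % 8 = 1) ∧ P D).card : ℝ) /
    (((Finset.Icc 1 X).filter fun D : ℕ => Adm D ∧ D % 8 = 1).card : ℝ)

section proof

open Pool.Agent.R426.QB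

lemma adm_iff (D : ℕ) : Adm D ↔ Ac D := by
  constructor
  · rintro ⟨h1, h2⟩
    exact ⟨h1, fun p hp => ⟨Nat.prime_of_mem_primeFactors hp,
      h2 p (Nat.prime_of_mem_primeFactors hp) (Nat.dvd_of_mem_primeFactors hp)⟩⟩
  · rintro ⟨h1, h2⟩
    exact ⟨h1, fun p hp hd => (h2 p (hp.mem_primeFactors hd h1.ne_zero)).2⟩

lemma upTo_iff (z : ℤ) (D : ℕ) : UpTo z D ↔ Cz z D := Iff.rfl

/-- an auxiliary prime number -/
lemma exists_aux (D : ℕ) (hD : D ≠ 0) : ∃ r, Pool.Agent.Y698.Inq r ∧ ¬ r ∣ D := by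
  have h1 : IsUnit ((5 : ℕ) : ZMod 28) := by
    rw [ZMod.isUnit_iff_coprime]
    norm_num
  obtain ⟨r, hr, hp, h2⟩ := Nat.forall_exists_prime_gt_and_eq_mod h1 D
  have h3 : r % 28 = 5 := by
    have := (ZMod.natCast_eq_natCast_iff' r 5 28).1 h2
    simpa using this
  refine ⟨r, ⟨hp, by omega, ?_⟩, fun h => ?_⟩
  · rw [Pool.Agent.R428.Q0.sq7_iff hp (by omega)]
    omega
  · exact absurd (Nat.le_of_dvd (Nat.pos_of_ne_zero hD) h) (by omega)

open Classical in
/-- the sets of the prime factors -/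
lemma sets {D : ℕ} (h : Ac D) :
    (∀ q ∈ D.primeFactors.filter fun p => p % 8 ≠ 1, Pool.Agent.Y698.Inq q) ∧
    (∀ q ∈ D.primeFactors.filter fun p => p % 8 = 1, Pool.Agent.Y698.SG.Spl q) ∧
    ∏ q ∈ (D.primeFactors.filter fun p => p % 8 ≠ 1) ∪ (D.primeFactors.filter fun p => p % 8 = 1),
      q = D := by
  refine ⟨fun q hq => ?_, fun q hq => ?_, ?_⟩
  · obtain ⟨h1, h2⟩ := Finset.mem_filter.1 hq
    exact (h.2 q h1).inq h2
  · obtain ⟨h1, h2⟩ := Finset.mem_filter.1 hq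
    exact (h.2 q h1).spl h2
  · rw [Finset.union_comm, Finset.filter_union_filter_not_eq]
    exact h.prod

/-- the descent decides by the matrix -/
lemma good_iff {D : ℕ} (h : Ac D) :
    RankZeroShaTwo D ↔ Pool.Agent.Y703.CQ.Gd Pool.Agent.Y698.SG.n4 D.primeFactors := by
  classical
  rw [Pool.Agent.R428.Q0.gd_iff]
  obtain ⟨hQ, hP, hDu⟩ := sets h
  set Q := D.primeFactors.filter fun p => p % 8 ≠ 1 with hQd
  set P := D.primeFactors.filter fun p => p % 8 = 1 with hPd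
  have hm4 : D % 4 = 1 := by
    have h1 := Pool.Agent.Y698.prod_mod_four (S := D.primeFactors) fun p hp => by
      rcases (h.2 p hp).or8 with h | h <;> omega
    rwa [Nat.prod_primeFactors_of_squarefree h.1] at h1
  obtain ⟨r, hr, hrD⟩ := exists_aux D h.1.ne_zero
  have hrf : Fact r.Prime := ⟨hr.pr⟩
  have hM : IsCyclotomicExtension {r} ℚ (CyclotomicField r ℚ) := Pool.Agent.Y698.cyc_inst r
  have hd : Pool.Agent.R428.Q0.DQ r Q P := ⟨hr, fun q hq => ⟨hQ q hq, by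
    rintro rfl
    exact hrD (Nat.dvd_of_mem_primeFactors (Finset.mem_filter.1 hq).1)⟩, hP⟩
  obtain ⟨j, hj'⟩ : ∃ j, D = 1 + 4 * j := ⟨D / 4, by omega⟩
  have hj : ∏ q ∈ Q ∪ P, q = 1 + 4 * j := hDu.trans hj'
  have hE : E D = Pool.Agent.Y698.AX ℚ j := by
    unfold E Pool.Agent.Y698.AX Pool.Agent.Y698.EX
    rw [hj']
    congr 1
    · push_cast; ring
    · push_cast; ring
    · push_cast; ring
  have hrat : ∀ k : ℚ, ∃ u : ℚ, k = u := fun k => ⟨k, (Rat.cast_id k).symm⟩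
  unfold RankZeroShaTwo
  rw [hE]
  constructor
  · rintro ⟨h1, h2⟩
    exact Pool.Agent.R428.Q0.conv0 (CyclotomicField r ℚ) ℚ hd hj h1 fun x hx => h2 x (by
      rw [two_nsmul]; exact hx)
  · intro h4
    exact ⟨Pool.Agent.R428.Q0.mw_finite0 ℚ hrat hQ hP h4 hj, fun x hx =>
      Pool.Agent.R428.Q0.sha_two0 ℚ hrat hQ hP h4 hj x (by rw [← two_nsmul]; exact hx)⟩

lemma good_iff' (D : ℕ) : Good D ↔ Gc D := by
  unfold Good Gc
  rw [adm_iff]
  exact and_congr_right fun h => good_iff h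

lemma pair_iff {n : ℕ} (M : ℤ) (d : Fin n → ℤ) : GoodPair M d ↔
    ((∀ T : Finset (Fin n), T.Nonempty → Nsq (∏ i ∈ T, d i)) ∧ GO d M) := by
  unfold GoodPair GO
  simp only [good_iff']
  rfl

lemma gz_of_good {D : ℕ} {z : ℤ} (h : Good D) (hz : UpTo z D) : GZ z := by
  classical
  have h1 := (good_iff' D).1 h
  obtain ⟨hQ, hP, hDu⟩ := sets h1.1
  refine ⟨_, _, hQ, hP, (Pool.Agent.R428.Q0.gd_iff _).1 h1.2, ?_⟩
  rwa [hDu]

open Classical in
lemma isL_iff (K : Type) [Field K] [NumberField K] (M m e : ℤ) (he : e = 1 ∨ e = -7)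
    (G : ℂ → ℂ) : IsL K M m G ↔
      Pool.Agent.Y19.QT.IsLFunK K (-35 * M ^ 2) (-98 * M ^ 3) (m * e) G := by
  unfold IsL Pool.Agent.Y19.QT.IsLFunK
  refine and_congr_right fun _ => forall_congr' fun s => forall_congr' fun _ => ?_
  have h1 : (fun v : HeightOneSpectrum (𝓞 K) =>
      if ((14 * M * m : ℤ) : 𝓞 K) ∈ v.asIdeal then (1 : ℂ) else
        (1 - (av K M v : ℂ) * (qv K v : ℂ) ^ (-s) + (qv K v : ℂ) ^ (1 - 2 * s))⁻¹) =
      fun v : HeightOneSpectrum (𝓞 K) =>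
      if ((2 * (4 * (-35 * M ^ 2) ^ 3 + 27 * (-98 * M ^ 3) ^ 2) * (m * e) : ℤ) : 𝓞 K) ∈ v.asIdeal
        then (1 : ℂ) else
        (1 - (av K M v : ℂ) * (qv K v : ℂ) ^ (-s) + (qv K v : ℂ) ^ (1 - 2 * s))⁻¹ := by
    funext v
    by_cases hv : ((14 * M * m : ℤ) : 𝓞 K) ∈ v.asIdeal
    · rw [if_pos hv, if_pos ((bad_iff K M m e he v).1 hv)]
    · rw [if_neg hv, if_neg fun h => hv ((bad_iff K M m e he v).2 h)]
  rw [h1]
  rfl

lemma bsd_of (K : Type) [Field K] [NumberField K] (M m e : ℤ) (he : e = 1 ∨ e = -7)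
    (h : (∃ F : ℂ → ℂ, Pool.Agent.Y19.QT.IsLFunK K (-35 * M ^ 2) (-98 * M ^ 3) (m * e) F ∧
      F 1 ≠ 0) ∧ Finite (Pool.Agent.Y19.QT.EK K (-35 * M ^ 2) (-98 * M ^ 3))) : BSDZero K M m := by
  obtain ⟨⟨F, hF, hF1⟩, hfin⟩ := h
  refine ⟨hfin, ⟨F, (isL_iff K M m e he F).2 hF⟩, fun G hG => ?_⟩
  rw [isLFunK_unique ((isL_iff K M m e he G).1 hG) hF]
  exact hF1

end proof

/-- **Twists of `X_0(49)` over multiquadratic fields.** -/
theorem result :
    (∀ (n : ℕ) (M : ℤ) (d : Fin n → ℤ), GoodPair M d →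
      (∀ (K : Type) [Field K] [NumberField K], IsMultiquadratic d K →
        Module.finrank ℚ K = 2 ^ n ∧ BSDZero K M (∏ i, d i)) ∧
      ∀ (K : Type) [Field K] [NumberField K],
        IsMultiquadratic (Fin.snoc d (-7) : Fin (n + 1) → ℤ) K →
        Module.finrank ℚ K = 2 ^ (n + 1) ∧ BSDZero K M (∏ i, d i)) ∧
    (∀ (n : ℕ) (d : Fin n → ℤ) (M : ℤ), Ind d → (∀ i, AdmUpTo (d i)) → AdmUpTo M →
      Tendsto (prop fun D => GoodPair (M * D) d) atTop (𝓝 (c ^ 2 ^ n))) ∧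
    (∀ (n : ℕ) (M : ℤ) (d : Fin n → ℤ), GoodPair M d →
      Tendsto (prop fun D => GoodPair M (Fin.snoc d (D : ℤ) : Fin (n + 1) → ℤ)) atTop
        (𝓝 (c ^ 2 ^ n))) ∧
    0.4194 < c ∧ c < 0.4195 := by
  classical
  open Pool.Agent.R426.QB in
  have hAc : ∀ D : ℕ, (Adm D ∧ D % 8 = 1) ↔ Ac8 D := fun D => by
    unfold Ac8
    rw [adm_iff]
  have hAU : ∀ z : ℤ, AdmUpTo z → Pool.Agent.R426.QB.AcS z := by
    rintro z ⟨D, h1, h2⟩
    exact ⟨D, (adm_iff D).1 h1, h2⟩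
  refine ⟨fun n M d hd => ?_, fun n d M hd ha hM => ?_, fun n M d hd => ?_, ?_⟩
  · have hz : ∀ T : Finset (Fin n), Pool.Agent.R426.QB.GZ (M * ∏ i ∈ T, d i) := by
      intro T
      obtain ⟨D, h1, h2⟩ := hd.2 T
      exact gz_of_good h1 h2
    have hind : Pool.Agent.Y19.QT.Indep d := fun T hT => (hd.1 T hT).1
    obtain ⟨g1, g2⟩ := Pool.Agent.R426.QB.mq_seven hd.1 hz
    refine ⟨fun K _ _ ⟨x, hx, hK⟩ => ⟨?_, ?_⟩, fun K _ _ ⟨x, hx, hK⟩ => ⟨?_, ?_⟩⟩
    · have := Pool.Agent.Y73.QMQ1.gal_of hx hK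
      rw [← IsGalois.card_aut_eq_finrank]
      exact Pool.Agent.Y73.QMQ1.card_gal hind hx hK
    · refine bsd_of K M _ 1 (Or.inl rfl) ?_
      rw [mul_one]
      exact Pool.Agent.R426.QB.mq_one hind hz K x hx hK
    · have := Pool.Agent.Y73.QMQ1.gal_of hx hK
      rw [← IsGalois.card_aut_eq_finrank]
      exact Pool.Agent.Y73.QMQ1.card_gal g1 hx hK
    · refine bsd_of K M _ (-7) (Or.inr rfl) ?_
      have h1 := Pool.Agent.R426.QB.mq_one g1 g2 K x hx hK
      rwa [Fin.prod_snoc] at h1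
  · have h := Pool.Agent.R426.QB.prop_field Pool.Agent.Y687.JQ.t_JDEN (n := n) (d := d) hd
      (fun i => hAU _ (ha i)) (N := M) (hAU _ hM)
    refine h.congr fun X => ?_
    unfold prop
    simp only [hAc]
    refine congrArg₂ (fun a b : ℕ => (a : ℝ) / (b : ℝ)) (congrArg Finset.card ?_) rfl
    refine Finset.filter_congr fun D _ => and_congr_right fun _ => ?_
    rw [pair_iff]
    exact ⟨fun h => ⟨hd, h⟩, fun h => h.2⟩
  · obtain ⟨hind, h⟩ := (pair_iff M d).1 hd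
    have h := Pool.Agent.R426.QB.prop_ext Pool.Agent.Y687.JQ.t_JDEN hind h
    refine h.congr fun X => ?_
    unfold prop
    simp only [hAc]
    refine congrArg₂ (fun a b : ℕ => (a : ℝ) / (b : ℝ)) (congrArg Finset.card ?_) rfl
    refine Finset.filter_congr fun D _ => and_congr_right fun _ => ?_
    rw [pair_iff]
  · exact ⟨Pool.Agent.Y948.CQ.t_C2.2.2.2.1, Pool.Agent.Y948.CQ.t_C2.2.2.2.2⟩

end Pool.Agent.Results.MP_ae0bd0_nt.TwoConverseX49
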